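import Pool.Agent.Helper21.Lin.Prob

/-!
Large sets of columns keep many alive columns.
-/

namespace Pool.Agent.Helper21.Lin

open scoped BigOperators Classical

variable {q n : ℕ} [hq : Fact q.Prime]

theorem prob_dead_le (j : Fin n) :
    prob (fun ω : Fin n → Bool × ZMod q => (ω j).1 = false) ≤ 1 / 2 := by
  have h1 : prob (fun ω : Fin n → Bool × ZMod q => (ω j).1 = false) ≤
      prob (fun ω : Fin n → Bool × ZMod q =>
        ∃ y ∈ (Finset.univ : Finset (ZMod q)), ∀ i ∈ ({j} : Finset (Fin n)), ω i = (false, y)) := by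
    apply prob_mono
    intro ω hω
    refine ⟨(ω j).2, Finset.mem_univ _, ?_⟩
    intro i hi
    rw [Finset.mem_singleton] at hi
    subst hi
    rw [← hω]
  refine h1.trans ((prob_exists_le _ _).trans ?_)
  have h2 : ∀ y ∈ (Finset.univ : Finset (ZMod q)),
      prob (fun ω : Fin n → Bool × ZMod q => ∀ i ∈ ({j} : Finset (Fin n)), ω i = (false, y)) ≤
        (2 * q : ℝ)⁻¹ := by
    intro y _
    have := prob_cylinder (α := Bool × ZMod q) ({j} : Finset (Fin n)) (fun _ => (false, y))
    rw [this, Finset.card_singleton, pow_one]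
    have hcard : (Fintype.card (Bool × ZMod q) : ℝ) = 2 * q := by
      rw [Fintype.card_prod, ZMod.card]; simp
    rw [hcard]
  refine (Finset.sum_le_sum h2).trans ?_
  rw [Finset.sum_const, Finset.card_univ, ZMod.card, nsmul_eq_mul]
  have : (0 : ℝ) < q := by exact_mod_cast hq.out.pos
  apply le_of_eq
  field_simp

/-- Number of alive columns in `A`. -/
noncomputable def alive (A : Finset (Fin n)) (ω : Fin n → Bool × ZMod q) : ℕ :=
  (A.filter (fun i => (ω i).1 = true)).card

theorem prob_alive_lt {V : ℕ} (A : Finset (Fin n)) (hA : 15 * V ≤ A.card) :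
    prob (fun ω : Fin n → Bool × ZMod q => alive A ω < 4 * V) ≤ (1 / 4 : ℝ) ^ V := by
  -- exponential moment
  set F : Fin n → (Fin n → Bool × ZMod q) → ℝ := fun j ω =>
    if (ω j).1 = true then 1 / 3 else 1 with hF
  have hfin := finner (α := Bool × ZMod q) 1 one_pos n A (fun j => {j}) F
    (fun j ω => by simp only [hF]; split_ifs <;> norm_num)
    (fun j ω ω' h => by simp only [hF]; rw [h j (Finset.mem_singleton_self j)])
    (fun i => by
      refine le_trans (Finset.card_le_card (t := {i}) ?_) (by simp)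
      intro j hj
      have := (Finset.mem_filter.1 hj).2
      rw [Finset.mem_singleton] at this ⊢
      exact this.symm)
  simp only [Nat.cast_one, div_one, Real.rpow_one] at hfin
  have hprod : ∀ ω, ∏ j ∈ A, F j ω = (1 / 3 : ℝ) ^ alive A ω := by
    intro ω
    simp only [hF]
    rw [Finset.prod_ite]
    simp [alive]
  simp only [hprod] at hfin
  have havg : ∀ j, avg (F j) ≤ 2 / 3 := by
    intro j
    have e : avg (F j) = 1 / 3 + 2 / 3 * prob (fun ω : Fin n → Bool × ZMod q =>
        (ω j).1 = false) := by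
      have e0 : prob (fun ω : Fin n → Bool × ZMod q => (ω j).1 = false) =
          avg (fun ω : Fin n → Bool × ZMod q => if (ω j).1 = false then (1 : ℝ) else 0) := by
        unfold prob
        congr 1
        funext ω
        by_cases h : (ω j).1 = false <;> simp [h]
      have h1 : avg (fun ω : Fin n → Bool × ZMod q => (1 / 3 : ℝ) +
          2 / 3 * (if (ω j).1 = false then (1 : ℝ) else 0)) = 1 / 3 +
          2 / 3 * avg (fun ω : Fin n → Bool × ZMod q =>
            (if (ω j).1 = false then (1 : ℝ) else 0)) := by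
        rw [avg_add, avg_const, avg_mul_left]
      rw [e0, ← h1]
      congr 1
      funext ω
      simp only [hF]
      by_cases h : (ω j).1 = true
      · simp [h]
      · simp only [Bool.not_eq_true] at h
        simp [h]
        norm_num
    rw [e]
    have := prob_dead_le (q := q) j
    linarith
  have h1 : avg (fun ω : Fin n → Bool × ZMod q => (1 / 3 : ℝ) ^ alive A ω) ≤
      (2 / 3 : ℝ) ^ (15 * V) := by
    refine hfin.trans ?_
    calc ∏ j ∈ A, avg (F j) ≤ ∏ j ∈ A, (2 / 3 : ℝ) :=
          Finset.prod_le_prod (fun j _ => avg_nonneg (fun ω => by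
            simp only [hF]; split_ifs <;> norm_num)) (fun j _ => havg j)
      _ = (2 / 3 : ℝ) ^ A.card := by rw [Finset.prod_const]
      _ ≤ (2 / 3 : ℝ) ^ (15 * V) := pow_le_pow_of_le_one (by norm_num) (by norm_num) hA
  have h2 : prob (fun ω : Fin n → Bool × ZMod q => alive A ω < 4 * V) ≤
      avg (fun ω : Fin n → Bool × ZMod q => (3 : ℝ) ^ (4 * V) * (1 / 3 : ℝ) ^ alive A ω) := by
    apply avg_mono
    intro ω
    split_ifs with h
    · have h3 : (3 : ℝ) ^ alive A ω ≤ (3 : ℝ) ^ (4 * V) :=
        pow_le_pow_right₀ (by norm_num) h.le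
      have h4 : (3 : ℝ) ^ alive A ω * (1 / 3 : ℝ) ^ alive A ω = 1 := by
        rw [← mul_pow]; norm_num
      calc (1 : ℝ) = (3 : ℝ) ^ alive A ω * (1 / 3 : ℝ) ^ alive A ω := h4.symm
        _ ≤ _ := mul_le_mul_of_nonneg_right h3 (by positivity)
    · positivity
  rw [avg_mul_left] at h2
  refine h2.trans ((mul_le_mul_of_nonneg_left h1 (by positivity)).trans ?_)
  rw [pow_mul, pow_mul, ← mul_pow]
  apply pow_le_pow_left₀ (by positivity)
  norm_num

end Pool.Agent.Helper21.Lin
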