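import Mathlib

/-!
Averages over finite product spaces and the Finner (generalised Hoelder) inequality for
families of functions in which every coordinate is read by at most t functions.
-/

namespace Pool.Agent.Helper21.Lin

open scoped BigOperators Classical

/-- Average over the product space `Fin n → α`. -/
noncomputable def avg {α : Type} [Fintype α] {n : ℕ} (g : (Fin n → α) → ℝ) : ℝ :=
  (∑ ω, g ω) / (Fintype.card α : ℝ) ^ n

section Avg

variable {α : Type} [Fintype α] [Nonempty α] {n : ℕ}

theorem card_pos' : (0 : ℝ) < Fintype.card α := by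
  exact_mod_cast Fintype.card_pos

theorem avg_mono {g h : (Fin n → α) → ℝ} (H : ∀ ω, g ω ≤ h ω) : avg g ≤ avg h := by
  unfold avg
  have := card_pos' (α := α)
  apply div_le_div_of_nonneg_right (Finset.sum_le_sum (fun ω _ => H ω))
  positivity

theorem avg_nonneg {g : (Fin n → α) → ℝ} (H : ∀ ω, 0 ≤ g ω) : 0 ≤ avg g := by
  unfold avg
  have := card_pos' (α := α)
  apply div_nonneg (Finset.sum_nonneg (fun ω _ => H ω))
  positivity

theorem avg_const (c : ℝ) : avg (fun _ : Fin n → α => c) = c := by
  unfold avg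
  have := card_pos' (α := α)
  rw [Finset.sum_const, Finset.card_univ, Fintype.card_fun, Fintype.card_fin, nsmul_eq_mul]
  push_cast
  field_simp

theorem avg_add (g h : (Fin n → α) → ℝ) : avg (fun ω => g ω + h ω) = avg g + avg h := by
  unfold avg
  rw [Finset.sum_add_distrib, add_div]

theorem avg_mul_left (c : ℝ) (g : (Fin n → α) → ℝ) : avg (fun ω => c * g ω) = c * avg g := by
  unfold avg
  rw [← Finset.mul_sum, mul_div_assoc]

theorem avg_sum {κ : Type*} (s : Finset κ) (g : κ → (Fin n → α) → ℝ) :
    avg (fun ω => ∑ j ∈ s, g j ω) = ∑ j ∈ s, avg (g j) := by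
  unfold avg
  rw [Finset.sum_comm, Finset.sum_div]

theorem avg_succ (g : (Fin (n + 1) → α) → ℝ) :
    avg g = (∑ a : α, avg (fun ω : Fin n → α => g (Fin.cons a ω))) / Fintype.card α := by
  unfold avg
  have h : ∑ ω, g ω = ∑ a : α, ∑ ω : Fin n → α, g (Fin.cons a ω) := by
    rw [← Fintype.sum_prod_type']
    exact (Fintype.sum_equiv (Fin.consEquiv (fun _ => α)) _ _ (fun x => rfl)).symm
  rw [h, ← Finset.sum_div, div_div, pow_succ]

theorem avg_succ' (g : (Fin (n + 1) → α) → ℝ) :
    avg g = avg (fun ω : Fin n → α => (∑ a : α, g (Fin.cons a ω)) / Fintype.card α) := by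
  rw [avg_succ]
  unfold avg
  rw [Finset.sum_div, Finset.sum_div]
  simp_rw [div_div]
  simp_rw [Finset.sum_div]
  rw [Finset.sum_comm]
  refine Finset.sum_congr rfl (fun ω _ => Finset.sum_congr rfl (fun a _ => ?_))
  ring

end Avg

section Holder

variable {α : Type} [Fintype α] [Nonempty α]

/-- Generalised Hoelder inequality on one coordinate. -/
theorem holder1 {κ : Type} (t : ℕ) (ht : 0 < t) (s : Finset κ) (hs : s.card ≤ t)
    (H : κ → α → ℝ) (hH : ∀ j a, 0 ≤ H j a) :
    (∑ a, ∏ j ∈ s, (H j a) ^ (1 / (t : ℝ))) / Fintype.card α ≤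
      ∏ j ∈ s, ((∑ a, H j a) / Fintype.card α) ^ (1 / (t : ℝ)) := by
  have hc := card_pos' (α := α)
  have ht' : (0 : ℝ) < t := by exact_mod_cast ht
  by_cases hz : ∃ j ∈ s, (∑ a, H j a) = 0
  · obtain ⟨j, hj, hj0⟩ := hz
    have h0 : ∀ a, H j a = 0 := by
      intro a
      exact (Finset.sum_eq_zero_iff_of_nonneg (fun a _ => hH j a)).1 hj0 a (Finset.mem_univ a)
    have h1 : ∀ a, ∏ j ∈ s, (H j a) ^ (1 / (t : ℝ)) = 0 := by
      intro a
      apply Finset.prod_eq_zero hj
      rw [h0 a, Real.zero_rpow]
      positivity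
    rw [Finset.sum_congr rfl (fun a _ => h1 a)]
    simp only [Finset.sum_const_zero, zero_div]
    apply Finset.prod_nonneg
    intro j _
    apply Real.rpow_nonneg
    exact div_nonneg (Finset.sum_nonneg (fun a _ => hH j a)) hc.le
  · push Not at hz
    set μ : κ → ℝ := fun j => (∑ a, H j a) / Fintype.card α with hμ
    have hμ0 : ∀ j ∈ s, 0 < μ j := by
      intro j hj
      apply div_pos _ hc
      exact lt_of_le_of_ne (Finset.sum_nonneg (fun a _ => hH j a)) (Ne.symm (hz j hj))
    have hcard : (s.card : ℝ) ≤ t := by exact_mod_cast hs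
    -- pointwise
    have hpt : ∀ a, ∏ j ∈ s, (H j a) ^ (1 / (t : ℝ)) ≤
        (∏ j ∈ s, (μ j) ^ (1 / (t : ℝ))) *
          ((∑ j ∈ s, (1 / (t : ℝ)) * (H j a / μ j)) + (1 - s.card / t)) := by
      intro a
      have h1 : ∏ j ∈ s, (H j a) ^ (1 / (t : ℝ)) =
          (∏ j ∈ s, (μ j) ^ (1 / (t : ℝ))) * ∏ j ∈ s, (H j a / μ j) ^ (1 / (t : ℝ)) := by
        rw [← Finset.prod_mul_distrib]
        refine Finset.prod_congr rfl (fun j hj => ?_)
        rw [← Real.mul_rpow (hμ0 j hj).le (div_nonneg (hH j a) (hμ0 j hj).le),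
          mul_div_cancel₀ _ (hμ0 j hj).ne']
      rw [h1]
      apply mul_le_mul_of_nonneg_left _
        (Finset.prod_nonneg (fun j hj => Real.rpow_nonneg (hμ0 j hj).le _))
      have key := Real.geom_mean_le_arith_mean_weighted (Finset.insertNone s)
        (fun o => o.elim (1 - s.card / t : ℝ) (fun _ => 1 / (t : ℝ)))
        (fun o => o.elim 1 (fun j => if j ∈ s then H j a / μ j else 1)) ?_ ?_ ?_
      · rw [Finset.prod_insertNone, Finset.sum_insertNone] at key
        simp only [Option.elim, Real.one_rpow, one_mul, mul_one] at key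
        have e1 : ∏ j ∈ s, (H j a / μ j) ^ (1 / (t : ℝ)) =
            ∏ j ∈ s, (if j ∈ s then H j a / μ j else 1) ^ (1 / (t : ℝ)) :=
          Finset.prod_congr rfl (fun j hj => by rw [if_pos hj])
        have e2 : ∑ j ∈ s, (1 / (t : ℝ)) * (H j a / μ j) =
            ∑ j ∈ s, (1 / (t : ℝ)) * (if j ∈ s then H j a / μ j else 1) :=
          Finset.sum_congr rfl (fun j hj => by rw [if_pos hj])
        rw [e1, e2]
        linarith
      · intro o _
        cases o with
        | none =>
          simp only [Option.elim]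
          have : (s.card : ℝ) / t ≤ 1 := by rw [div_le_one ht']; exact hcard
          linarith
        | some j => simp only [Option.elim]; positivity
      · rw [Finset.sum_insertNone]
        simp only [Option.elim, Finset.sum_const, nsmul_eq_mul]
        field_simp
        ring
      · intro o _
        cases o with
        | none => simp
        | some j =>
          simp only [Option.elim]
          split_ifs with hj
          · exact div_nonneg (hH j a) (hμ0 j hj).le
          · norm_num
    calc (∑ a, ∏ j ∈ s, (H j a) ^ (1 / (t : ℝ))) / Fintype.card α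
        ≤ (∑ a, (∏ j ∈ s, (μ j) ^ (1 / (t : ℝ))) *
          ((∑ j ∈ s, (1 / (t : ℝ)) * (H j a / μ j)) + (1 - s.card / t))) / Fintype.card α := by
          apply div_le_div_of_nonneg_right (Finset.sum_le_sum (fun a _ => hpt a)) hc.le
      _ = (∏ j ∈ s, (μ j) ^ (1 / (t : ℝ))) := by
          rw [← Finset.mul_sum, Finset.sum_add_distrib, Finset.sum_comm]
          have e1 : ∀ j ∈ s, ∑ a, (1 / (t : ℝ)) * (H j a / μ j) =
              (1 / (t : ℝ)) * Fintype.card α := by
            intro j hj
            rw [← Finset.mul_sum, ← Finset.sum_div]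
            congr 1
            have := hμ0 j hj
            rw [div_eq_iff this.ne']
            simp only [hμ]
            field_simp
          rw [Finset.sum_congr rfl e1]
          simp only [Finset.sum_const, nsmul_eq_mul, Finset.card_univ]
          field_simp
          ring

end Holder

section Finner

variable {α : Type} [Fintype α] [Nonempty α]

/-- Finner's inequality for read-`t` families. -/
theorem finner {κ : Type} (t : ℕ) (ht : 0 < t) : ∀ (n : ℕ) (s : Finset κ)
    (V : κ → Finset (Fin n)) (F : κ → (Fin n → α) → ℝ),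
    (∀ j ω, 0 ≤ F j ω) →
    (∀ j ω ω', (∀ i ∈ V j, ω i = ω' i) → F j ω = F j ω') →
    (∀ i, (s.filter (fun j => i ∈ V j)).card ≤ t) →
    avg (fun ω => ∏ j ∈ s, (F j ω) ^ (1 / (t : ℝ))) ≤ ∏ j ∈ s, (avg (F j)) ^ (1 / (t : ℝ)) := by
  intro n
  induction n with
  | zero =>
    intro s V F hF _ _
    unfold avg
    simp
  | succ n ih =>
    intro s V F hF hloc hread
    have hc := card_pos' (α := α)
    set G : κ → (Fin n → α) → ℝ := fun j ω => (∑ a : α, F j (Fin.cons a ω)) / Fintype.card α
      with hG
    have hGnn : ∀ j ω, 0 ≤ G j ω := by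
      intro j ω
      exact div_nonneg (Finset.sum_nonneg (fun a _ => hF _ _)) hc.le
    have hGavg : ∀ j, avg (G j) = avg (F j) := fun j => (avg_succ' (F j)).symm
    -- inner step
    have hinner : ∀ ω : Fin n → α,
        (∑ a : α, ∏ j ∈ s, (F j (Fin.cons a ω)) ^ (1 / (t : ℝ))) / Fintype.card α ≤
          ∏ j ∈ s, (G j ω) ^ (1 / (t : ℝ)) := by
      intro ω
      set s0 := s.filter (fun j => (0 : Fin (n + 1)) ∈ V j) with hs0
      set s1 := s.filter (fun j => ¬ (0 : Fin (n + 1)) ∈ V j) with hs1
      have hconst : ∀ j ∈ s1, ∀ a, F j (Fin.cons a ω) = G j ω := by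
        intro j hj a
        have hj' : ¬ (0 : Fin (n + 1)) ∈ V j := (Finset.mem_filter.1 hj).2
        have e : ∀ b : α, F j (Fin.cons b ω) = F j (Fin.cons a ω) := by
          intro b
          apply hloc
          intro i hi
          refine Fin.cases ?_ ?_ i hi
          · intro h0; exact absurd h0 hj'
          · intro i _; simp
        simp only [hG]
        rw [Finset.sum_congr rfl (fun b _ => e b)]
        simp only [Finset.sum_const, Finset.card_univ, nsmul_eq_mul]
        field_simp
      have hsplit : ∀ (f : κ → ℝ), ∏ j ∈ s, f j = (∏ j ∈ s1, f j) * ∏ j ∈ s0, f j := by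
        intro f
        rw [mul_comm]
        exact (Finset.prod_filter_mul_prod_filter_not s _ f).symm
      have h1 : ∀ a : α, ∏ j ∈ s, (F j (Fin.cons a ω)) ^ (1 / (t : ℝ)) =
          (∏ j ∈ s1, (G j ω) ^ (1 / (t : ℝ))) *
            ∏ j ∈ s0, (F j (Fin.cons a ω)) ^ (1 / (t : ℝ)) := by
        intro a
        rw [hsplit]
        congr 1
        exact Finset.prod_congr rfl (fun j hj => by rw [hconst j hj a])
      rw [Finset.sum_congr rfl (fun a _ => h1 a), ← Finset.mul_sum, mul_div_assoc,
        hsplit (fun j => (G j ω) ^ (1 / (t : ℝ)))]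
      apply mul_le_mul_of_nonneg_left _
        (Finset.prod_nonneg (fun j _ => Real.rpow_nonneg (hGnn j ω) _))
      exact holder1 t ht s0 (hread 0) (fun j a => F j (Fin.cons a ω)) (fun j a => hF _ _)
    have h2 : avg (fun ω => ∏ j ∈ s, (F j ω) ^ (1 / (t : ℝ))) ≤
        avg (fun ω : Fin n → α => ∏ j ∈ s, (G j ω) ^ (1 / (t : ℝ))) := by
      rw [avg_succ']
      exact avg_mono hinner
    refine h2.trans ?_
    have h3 := ih s (fun j => Finset.univ.filter (fun i => Fin.succ i ∈ V j)) G hGnn ?_ ?_
    · simp only [hGavg] at h3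
      exact h3
    · intro j ω ω' h
      simp only [hG]
      congr 1
      refine Finset.sum_congr rfl (fun a _ => hloc j _ _ ?_)
      intro i
      refine Fin.cases ?_ ?_ i
      · intro _; simp
      · intro i hi
        simp only [Fin.cons_succ]
        exact h i (by simp [hi])
    · intro i
      refine le_trans (Finset.card_le_card ?_) (hread (Fin.succ i))
      intro j hj
      simp only [Finset.mem_filter, Finset.mem_univ, true_and] at hj ⊢
      exact hj

end Finner

end Pool.Agent.Helper21.Lin
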