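import Pool.Agent.Helper21.Lin.Light

/-!
Degree of light gates after a random restriction, and the choice of the heavy columns.
-/

namespace Pool.Agent.Helper21.Lin

open scoped BigOperators Classical
open Pool.Agent.Helper21.AC0p

variable {q n : ℕ} [hq : Fact q.Prime] {K : Type} [Field K]
variable {ψ : AddChar (ZMod q) K} (hψ : ψ.IsPrimitive) (hqK : (q : K) ≠ 0)

/-- The child `A` is bad: its restriction does not have the expected degree. -/
def Bad (ψ : AddChar (ZMod q) K) (p : ℕ) (ε : ℝ) (g : Fin n → Option (ZMod q)) (A : Fm)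
    (ω : Fin n → Bool × ZMod q) : Prop :=
  rst K p g ω A ∉ (chrFilt ψ n).LD ⌈ε * A.size⌉₊

/-- Number of large children. -/
theorem card_large_le {k S1 : ℕ} (f : Fin k → Fm) :
    (Finset.univ.filter (fun j => S1 ≤ (f j).size)).card * S1 ≤ ∑ j, (f j).size := by
  calc (Finset.univ.filter (fun j => S1 ≤ (f j).size)).card * S1
      = ∑ j ∈ Finset.univ.filter (fun j => S1 ≤ (f j).size), S1 := by
        rw [Finset.sum_const, smul_eq_mul]
    _ ≤ ∑ j ∈ Finset.univ.filter (fun j => S1 ≤ (f j).size), (f j).size :=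
        Finset.sum_le_sum (fun j hj => (Finset.mem_filter.1 hj).2)
    _ ≤ ∑ j, (f j).size := Finset.sum_le_sum_of_subset (Finset.filter_subset _ _)

/-- Constants attached to the large children. -/
structure Consts (q S1 : ℕ) (γ1 ε κ : ℝ) : Prop where
  γ1_pos : 0 < γ1
  ε_pos : 0 < ε
  κ_nn : 0 ≤ κ
  κ_le : κ ≤ γ1 * ε / 4
  exp_le : ∀ s : ℕ, S1 ≤ s → Real.exp (-(γ1 * s / 2)) ≤ κ * s
  S1_le : 1 ≤ ε * S1

section Gates

variable {p k t S1 s : ℕ} {γ1 ε κ : ℝ} {g : Fin n → Option (ZMod q)} {f : Fin k → Fm}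

/-- The large children are good except with small probability. -/
theorem large_prob' (hC : Consts q S1 γ1 ε κ) (ht : 0 < t)
    (hocc : ∀ i : Fin n, g i = none → ∑ j, occ q i.val (f j) ≤ t)
    (hs : ∑ j, (f j).size ≤ s)
    (hIH : ∀ j, S1 ≤ (f j).size → ∀ D : ℕ, ε * (f j).size ≤ D →
      prob (fun ω : Fin n → Bool × ZMod q => rst K p g ω (f j) ∉ (chrFilt ψ n).LD D) ≤
        Real.exp (-(γ1 * (f j).size))) :
    prob (fun ω : Fin n → Bool × ZMod q => ε * s <
      ((∑ j ∈ Finset.univ.filter (fun j => S1 ≤ (f j).size),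
        if Bad ψ p ε g (f j) ω then (f j).size else 0 : ℕ) :
          ℝ)) ≤ Real.exp (-(γ1 * ε * s / (4 * t))) := by
  refine large_prob (K := K) (p := p) ht hocc _
    (fun j ω => Bad ψ p ε g (f j) ω) ?_
    hC.γ1_pos hC.ε_pos hC.κ_nn hC.κ_le ?_ ?_ ?_
  · intro j ω ω' h1 h2
    unfold Bad at h2 ⊢
    rw [← h1]; exact h2
  · have : ∑ j ∈ Finset.univ.filter (fun j => S1 ≤ (f j).size), (f j).size ≤ s :=
      (Finset.sum_le_sum_of_subset (Finset.filter_subset _ _)).trans hs
    exact_mod_cast this
  · intro j hj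
    exact hC.exp_le _ (Finset.mem_filter.1 hj).2
  · intro j hj
    exact hIH j (Finset.mem_filter.1 hj).2 _ (Nat.le_ceil _)

include hψ hqK in
/-- A light disjunction. -/
theorem light_or (hC : Consts q S1 γ1 ε κ) (ht : 0 < t)
    (hocc : ∀ i : Fin n, g i = none → ∑ j, occ q i.val (f j) ≤ t)
    (hs : ∑ j, (f j).size ≤ s)
    (hIH : ∀ j, S1 ≤ (f j).size → ∀ D : ℕ, ε * (f j).size ≤ D →
      prob (fun ω : Fin n → Bool × ZMod q => rst K p g ω (f j) ∉ (chrFilt ψ n).LD D) ≤
        Real.exp (-(γ1 * (f j).size)))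
    {D : ℕ} (hD : 4 * ε * s ≤ D) :
    prob (fun ω : Fin n → Bool × ZMod q => rst K p g ω (.or k f) ∉ (chrFilt ψ n).LD D) ≤
      Real.exp (-(min (γ1 * ε / 4) (((2 * q : ℝ)⁻¹) ^ S1 * ε / S1) * s / t)) := by
  have ht' : (0 : ℝ) < t := by exact_mod_cast ht
  have hs0 : (0 : ℝ) ≤ s := Nat.cast_nonneg s
  have hS1 : 0 < (S1 : ℝ) := by
    by_contra hcon
    push Not at hcon
    have := hC.S1_le
    have h0 := hC.ε_pos
    nlinarith
  set Sm := Finset.univ.filter (fun j => (f j).size ≤ S1 ∧ Sat p g (f j)) with hSm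
  set L := Finset.univ.filter (fun j => S1 ≤ (f j).size) with hL
  by_cases hr : (Sm.card : ℝ) * S1 ≤ ε * s
  · -- few small children
    have h1 : prob (fun ω : Fin n → Bool × ZMod q =>
        rst K p g ω (.or k f) ∉ (chrFilt ψ n).LD D) ≤
        Real.exp (-(γ1 * ε * s / (4 * t))) := by
      refine le_trans (prob_mono ?_) (large_prob' (K := K) (ψ := ψ) (p := p) hC ht hocc hs hIH)
      intro ω hω
      by_contra hcon
      push Not at hcon
      apply hω
      have h2 := rst_or_mem p (chrFilt ψ n) g ω f (Sm ∪ L)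
        (fun j => if j ∈ L then (if Bad ψ p ε g (f j) ω
          then (f j).size else ⌈ε * (f j).size⌉₊) else S1) ?_ ?_
      · refine (chrFilt ψ n).mono ?_ h2
        have h3 : ∑ j ∈ Sm ∪ L, (if j ∈ L then
            (if Bad ψ p ε g (f j) ω
              then (f j).size else ⌈ε * (f j).size⌉₊) else S1) ≤
            ∑ j ∈ Sm, S1 + ∑ j ∈ L,
              (if Bad ψ p ε g (f j) ω
              then (f j).size else ⌈ε * (f j).size⌉₊) := by
          rw [← Finset.sum_sdiff (Finset.subset_union_right (s₁ := Sm) (s₂ := L))]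
          apply add_le_add
          · have hsub : (Sm ∪ L) \ L ⊆ Sm := by
              intro j hj
              rw [Finset.mem_sdiff, Finset.mem_union] at hj
              exact hj.1.resolve_right hj.2
            refine le_trans (le_of_eq ?_) (Finset.sum_le_sum_of_subset hsub)
            refine Finset.sum_congr rfl (fun j hj => ?_)
            rw [if_neg (Finset.mem_sdiff.1 hj).2]
          · apply le_of_eq
            refine Finset.sum_congr rfl (fun j hj => ?_)
            rw [if_pos hj]
        have h4 : ∑ j ∈ L,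
              (if Bad ψ p ε g (f j) ω
              then (f j).size else ⌈ε * (f j).size⌉₊) ≤
            ∑ j ∈ L, (if Bad ψ p ε g (f j) ω
              then (f j).size else 0) + ∑ j ∈ L, ⌈ε * (f j).size⌉₊ := by
          rw [← Finset.sum_add_distrib]
          apply Finset.sum_le_sum
          intro j _
          split_ifs <;> omega
        have h5 : ((∑ j ∈ L, ⌈ε * (f j).size⌉₊ : ℕ) : ℝ) ≤ 2 * (ε * s) := by
          push_cast
          have h6 : ∀ j ∈ L, ((⌈ε * (f j).size⌉₊ : ℕ) : ℝ) ≤ ε * (f j).size + 1 := by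
            intro j _
            exact (Nat.ceil_lt_add_one (by have := hC.ε_pos; positivity)).le
          refine (Finset.sum_le_sum h6).trans ?_
          rw [Finset.sum_add_distrib, Finset.sum_const, nsmul_eq_mul, mul_one,
            ← Finset.mul_sum]
          have h7 : ((∑ j ∈ L, (f j).size : ℕ) : ℝ) ≤ s := by
            have : ∑ j ∈ L, (f j).size ≤ s :=
              (Finset.sum_le_sum_of_subset (Finset.filter_subset _ _)).trans hs
            exact_mod_cast this
          push_cast at h7
          have h8 : (L.card : ℝ) * S1 ≤ s := by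
            have := (card_large_le (S1 := S1) f).trans hs
            exact_mod_cast this
          have h9 : (L.card : ℝ) ≤ ε * s := by
            have h10 := hC.S1_le
            have h11 : (0 : ℝ) ≤ L.card := Nat.cast_nonneg _
            calc (L.card : ℝ) = L.card * 1 := by ring
              _ ≤ L.card * (ε * S1) := mul_le_mul_of_nonneg_left h10 h11
              _ = ε * (L.card * S1) := by ring
              _ ≤ ε * s := mul_le_mul_of_nonneg_left h8 hC.ε_pos.le
          have h12 := mul_le_mul_of_nonneg_left h7 hC.ε_pos.le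
          linarith
        have h13 : ((∑ j ∈ Sm, S1 : ℕ) : ℝ) ≤ ε * s := by
          rw [Finset.sum_const, smul_eq_mul]
          push_cast
          exact hr
        have h14 : ((∑ j ∈ Sm ∪ L, (if j ∈ L then
            (if Bad ψ p ε g (f j) ω
              then (f j).size else ⌈ε * (f j).size⌉₊) else S1) : ℕ) : ℝ) ≤ D := by
          have h15 := (h3.trans (Nat.add_le_add_left h4 _))
          have h16 : ((∑ j ∈ Sm ∪ L, (if j ∈ L then
            (if Bad ψ p ε g (f j) ω
              then (f j).size else ⌈ε * (f j).size⌉₊) else S1) : ℕ) : ℝ) ≤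
              ((∑ j ∈ Sm, S1 : ℕ) : ℝ) + (((∑ j ∈ L,
                (if Bad ψ p ε g (f j) ω
              then (f j).size else 0) : ℕ) : ℝ) + ((∑ j ∈ L, ⌈ε * (f j).size⌉₊ : ℕ) : ℝ)) := by
            exact_mod_cast h15
          linarith
        exact_mod_cast h14
      · intro j hj
        by_cases hjL : j ∈ L
        · rw [if_pos hjL]
          by_cases h : Bad ψ p ε g (f j) ω
          · rw [if_pos h]; exact rst_mem_size hψ hqK p g ω (f j)
          · rw [if_neg h]
            unfold Bad at h
            push Not at h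
            exact h
        · rw [if_neg hjL]
          have hjS : j ∈ Sm := (Finset.mem_union.1 hj).resolve_right hjL
          exact (chrFilt ψ n).mono (Finset.mem_filter.1 hjS).2.1 (rst_mem_size hψ hqK p g ω (f j))
      · intro j hj
        rw [Finset.mem_union, not_or] at hj
        apply rst_zero_of_not_sat
        intro hsat
        apply hj.1
        rw [hSm, Finset.mem_filter]
        refine ⟨Finset.mem_univ _, ?_, hsat⟩
        by_contra hlt
        apply hj.2
        rw [hL, Finset.mem_filter]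
        exact ⟨Finset.mem_univ _, by omega⟩
    refine h1.trans (Real.exp_le_exp.2 ?_)
    have h17 : min (γ1 * ε / 4) (((2 * q : ℝ)⁻¹) ^ S1 * ε / S1) * s / t ≤
        (γ1 * ε / 4) * s / t := by
      apply div_le_div_of_nonneg_right _ ht'.le
      exact mul_le_mul_of_nonneg_right (min_le_left _ _) hs0
    have h18 : (γ1 * ε / 4) * s / t = γ1 * ε * s / (4 * t) := by
      field_simp
    linarith
  · -- many small children
    push Not at hr
    have h1 : prob (fun ω : Fin n → Bool × ZMod q =>
        rst K p g ω (.or k f) ∉ (chrFilt ψ n).LD D) ≤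
        Real.exp (-(((2 * q : ℝ)⁻¹) ^ S1 * Sm.card / t)) := by
      refine le_trans (prob_mono ?_) (kill_prob (K := K) (p := p) ht hocc Sm S1 ?_)
      · intro ω hω j hj hone
        apply hω
        rw [rst_or_one p g ω f j hone]
        exact (chrFilt ψ n).one_mem' _
      · intro j hj
        exact (Finset.mem_filter.1 hj).2
    refine h1.trans (Real.exp_le_exp.2 ?_)
    have h17 : min (γ1 * ε / 4) (((2 * q : ℝ)⁻¹) ^ S1 * ε / S1) * s / t ≤
        (((2 * q : ℝ)⁻¹) ^ S1 * ε / S1) * s / t := by
      apply div_le_div_of_nonneg_right _ ht'.le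
      exact mul_le_mul_of_nonneg_right (min_le_right _ _) hs0
    have h18 : (((2 * q : ℝ)⁻¹) ^ S1 * ε / S1) * s / t ≤
        ((2 * q : ℝ)⁻¹) ^ S1 * Sm.card / t := by
      apply div_le_div_of_nonneg_right _ ht'.le
      have h19 : (((2 * q : ℝ)⁻¹) ^ S1 * ε / S1) * s =
          ((2 * q : ℝ)⁻¹) ^ S1 * (ε * s / S1) := by ring
      rw [h19]
      apply mul_le_mul_of_nonneg_left _ (by positivity)
      rw [div_le_iff₀ hS1]
      exact hr.le
    linarith

include hψ hqK in
/-- A light MOD gate. -/
theorem light_mod [hp : Fact p.Prime] [CharP K p] (hC : Consts q S1 γ1 ε κ) (ht : 0 < t)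
    (hocc : ∀ i : Fin n, g i = none → ∑ j, occ q i.val (f j) ≤ t)
    (hs : ∑ j, (f j).size ≤ s)
    (hIH : ∀ j, S1 ≤ (f j).size → ∀ D : ℕ, ε * (f j).size ≤ D →
      prob (fun ω : Fin n → Bool × ZMod q => rst K p g ω (f j) ∉ (chrFilt ψ n).LD D) ≤
        Real.exp (-(γ1 * (f j).size)))
    {D D' : ℕ} (h1 : S1 ≤ D') (h2 : ε * s + 1 ≤ D') (hD : (p - 1) * D' ≤ D) :
    prob (fun ω : Fin n → Bool × ZMod q => rst K p g ω (.mod k f) ∉ (chrFilt ψ n).LD D) ≤
      Real.exp (-(min (γ1 * ε / 4) (((2 * q : ℝ)⁻¹) ^ S1 * ε / S1) * s / t)) := by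
  have ht' : (0 : ℝ) < t := by exact_mod_cast ht
  have hs0 : (0 : ℝ) ≤ s := Nat.cast_nonneg s
  set L := Finset.univ.filter (fun j => S1 ≤ (f j).size) with hL
  have h3 : prob (fun ω : Fin n → Bool × ZMod q =>
      rst K p g ω (.mod k f) ∉ (chrFilt ψ n).LD D) ≤
      Real.exp (-(γ1 * ε * s / (4 * t))) := by
    refine le_trans (prob_mono ?_) (large_prob' (K := K) (ψ := ψ) (p := p) hC ht hocc hs hIH)
    intro ω hω
    by_contra hcon
    push Not at hcon
    apply hω
    refine (chrFilt ψ n).mono hD (rst_mod_mem (chrFilt ψ n) g ω f D' ?_)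
    intro j
    by_cases hjL : j ∈ L
    · by_cases hb : rst K p g ω (f j) ∈ (chrFilt ψ n).LD ⌈ε * (f j).size⌉₊
      · refine (chrFilt ψ n).mono ?_ hb
        have h4 : ((f j).size : ℝ) ≤ s := by
          have : (f j).size ≤ s :=
            (Finset.single_le_sum (f := fun j => (f j).size) (fun _ _ => Nat.zero_le _)
              (Finset.mem_univ j)).trans hs
          exact_mod_cast this
        have h5 : ((⌈ε * (f j).size⌉₊ : ℕ) : ℝ) ≤ D' := by
          have h6 := (Nat.ceil_lt_add_one (a := ε * ((f j).size : ℝ))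
            (by have := hC.ε_pos; positivity)).le
          have h7 := mul_le_mul_of_nonneg_left h4 hC.ε_pos.le
          linarith
        exact_mod_cast h5
      · have hb : Bad ψ p ε g (f j) ω := hb
        refine (chrFilt ψ n).mono ?_ (rst_mem_size hψ hqK p g ω (f j))
        have h4 : (f j).size ≤ ∑ j ∈ L,
            if Bad ψ p ε g (f j) ω then (f j).size else 0 := by
          calc (f j).size = (if Bad ψ p ε g (f j) ω
                then (f j).size else 0) := by rw [if_pos hb]
            _ ≤ _ := Finset.single_le_sum (f := fun j =>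
                if Bad ψ p ε g (f j) ω then (f j).size else 0)
                (fun _ _ => Nat.zero_le _) hjL
        have h5 : ((f j).size : ℝ) ≤ D' := by
          have h6 : ((f j).size : ℝ) ≤ ((∑ j ∈ L,
            if Bad ψ p ε g (f j) ω then (f j).size else 0 :
              ℕ) : ℝ) := by exact_mod_cast h4
          linarith
        exact_mod_cast h5
    · refine (chrFilt ψ n).mono ?_ (rst_mem_size hψ hqK p g ω (f j))
      have : ¬ S1 ≤ (f j).size := by
        intro h
        apply hjL
        rw [hL, Finset.mem_filter]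
        exact ⟨Finset.mem_univ _, h⟩
      omega
  refine h3.trans (Real.exp_le_exp.2 ?_)
  have h17 : min (γ1 * ε / 4) (((2 * q : ℝ)⁻¹) ^ S1 * ε / S1) * s / t ≤
      (γ1 * ε / 4) * s / t := by
    apply div_le_div_of_nonneg_right _ ht'.le
    exact mul_le_mul_of_nonneg_right (min_le_left _ _) hs0
  have h18 : (γ1 * ε / 4) * s / t = γ1 * ε * s / (4 * t) := by
    field_simp
  linarith

end Gates

/-- Sum of the powers of two below a number. -/
theorem sum_pow_le (J o : ℕ) :
    ∑ j ∈ (Finset.range J).filter (fun j => 2 ^ (j + 1) ≤ o), 2 ^ (j + 1) ≤ 2 * o := by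
  induction J with
  | zero => simp
  | succ J ih =>
    by_cases h : 2 ^ (J + 1) ≤ o
    · have h1 : (Finset.range (J + 1)).filter (fun j => 2 ^ (j + 1) ≤ o) =
          Finset.range (J + 1) := by
        apply Finset.filter_true_of_mem
        intro j hj
        have : j + 1 ≤ J + 1 := by have := Finset.mem_range.1 hj; omega
        exact (Nat.pow_le_pow_right (by norm_num) this).trans h
      rw [h1]
      have h2 : ∀ m : ℕ, ∑ j ∈ Finset.range m, 2 ^ (j + 1) ≤ 2 * 2 ^ m := by
        intro m
        induction m with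
        | zero => simp
        | succ m ih2 =>
          rw [Finset.sum_range_succ]
          calc ∑ j ∈ Finset.range m, 2 ^ (j + 1) + 2 ^ (m + 1)
              ≤ 2 * 2 ^ m + 2 ^ (m + 1) := by omega
            _ = 2 * 2 ^ (m + 1) := by ring
      exact (h2 (J + 1)).trans (by omega)
    · rw [Finset.range_add_one, Finset.filter_insert, if_neg h]
      exact ih

/-- Choice of the threshold for heavy columns. -/
theorem exists_threshold {n s J : ℕ} (hJ : 0 < J) (o : Fin n → ℕ) (ho : ∑ i, o i ≤ s) :
    ∃ j, j < J ∧ J * (2 ^ (j + 1) * (Finset.univ.filter (fun i => 2 ^ (j + 1) ≤ o i)).card) ≤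
      2 * s := by
  by_contra hcon
  push Not at hcon
  have h1 : ∑ j ∈ Finset.range J, 2 ^ (j + 1) *
      (Finset.univ.filter (fun i => 2 ^ (j + 1) ≤ o i)).card ≤ 2 * s := by
    have e : ∀ j ∈ Finset.range J, 2 ^ (j + 1) *
        (Finset.univ.filter (fun i => 2 ^ (j + 1) ≤ o i)).card =
        ∑ i, if 2 ^ (j + 1) ≤ o i then 2 ^ (j + 1) else 0 := by
      intro j _
      rw [← Finset.sum_filter, Finset.sum_const, smul_eq_mul, mul_comm]
    rw [Finset.sum_congr rfl e, Finset.sum_comm]
    calc ∑ i, ∑ j ∈ Finset.range J, (if 2 ^ (j + 1) ≤ o i then 2 ^ (j + 1) else 0)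
        = ∑ i, ∑ j ∈ (Finset.range J).filter (fun j => 2 ^ (j + 1) ≤ o i), 2 ^ (j + 1) := by
          refine Finset.sum_congr rfl (fun i _ => ?_)
          rw [Finset.sum_filter]
      _ ≤ ∑ i, 2 * o i := Finset.sum_le_sum (fun i _ => sum_pow_le J (o i))
      _ = 2 * ∑ i, o i := by rw [Finset.mul_sum]
      _ ≤ 2 * s := by omega
  have h2 : ∑ j ∈ Finset.range J, (2 * s + 1) ≤ J * ∑ j ∈ Finset.range J, 2 ^ (j + 1) *
      (Finset.univ.filter (fun i => 2 ^ (j + 1) ≤ o i)).card := by
    rw [Finset.mul_sum]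
    apply Finset.sum_le_sum
    intro j hj
    exact hcon j (Finset.mem_range.1 hj)
  rw [Finset.sum_const, Finset.card_range, smul_eq_mul] at h2
  have h3 : J * ∑ j ∈ Finset.range J, 2 ^ (j + 1) *
      (Finset.univ.filter (fun i => 2 ^ (j + 1) ≤ o i)).card ≤ J * (2 * s) :=
    Nat.mul_le_mul_left _ h1
  have h4 : J * (2 * s) < J * (2 * s + 1) := Nat.mul_lt_mul_of_pos_left (by omega) hJ
  omega

end Pool.Agent.Helper21.Lin
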