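import Pool.Agent.Helper21.Lin.Restrict

/-!
Gates in which every free column occurs at most t times.
-/

namespace Pool.Agent.Helper21.Lin

open scoped BigOperators Classical
open Pool.Agent.Helper21.AC0p

variable {q n : ℕ} [hq : Fact q.Prime] {K : Type} [Field K]

/-- The formula is satisfiable by a point extending `g`. -/
def Sat (p : ℕ) (g : Fin n → Option (ZMod q)) (T : Fm) : Prop :=
  ∃ y : Fin n → ZMod q, (∀ i a, g i = some a → y i = a) ∧ T.eval p (enc q y) = true

omit hq in
theorem rst_zero_of_not_sat {p : ℕ} {g : Fin n → Option (ZMod q)} {T : Fm} (h : ¬ Sat p g T)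
    (ω : Fin n → Bool × ZMod q) : rst K p g ω T = 0 := by
  funext x
  unfold rst ind
  beta_reduce
  rw [if_neg]
  · rfl
  · intro hT
    apply h
    refine ⟨mrg g ω x, ?_, hT⟩
    intro i a hi
    unfold mrg
    rw [hi]

theorem prob_sat {p : ℕ} {g : Fin n → Option (ZMod q)} {T : Fm} (h : Sat p g T) :
    ((2 * q : ℝ)⁻¹) ^ T.size ≤ prob (fun ω : Fin n → Bool × ZMod q => rst K p g ω T = 1) := by
  obtain ⟨y, hy, hT⟩ := h
  set A : Finset (Fin n) := Finset.univ.filter (fun i => occ q i.val T ≠ 0) with hA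
  have h1 : prob (fun ω : Fin n → Bool × ZMod q => ∀ i ∈ A, ω i = (false, y i)) ≤
      prob (fun ω : Fin n → Bool × ZMod q => rst K p g ω T = 1) := by
    apply prob_mono
    intro ω hω
    funext x
    unfold rst ind
    beta_reduce
    rw [if_pos]
    · rfl
    rw [← hT]
    apply eval_congr_occ
    intro i hi
    unfold mrg
    rcases hg : g i with _ | a
    · have := hω i (by rw [hA]; simp [hi])
      simp [this]
    · simp only
      exact (hy i a hg).symm
  rw [prob_cylinder] at h1
  refine le_trans ?_ h1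
  have hcard : (Fintype.card (Bool × ZMod q) : ℝ) = 2 * q := by
    rw [Fintype.card_prod, ZMod.card]; simp
  rw [hcard]
  have h2 := hq.out.two_le
  have h3 : (2 : ℝ) ≤ q := by exact_mod_cast h2
  have hAs : A.card ≤ T.size := by
    refine le_trans ?_ (occ_sum_fin_le (n := n) q T)
    rw [Finset.card_eq_sum_ones, hA]
    calc ∑ i ∈ Finset.univ.filter (fun i : Fin n => occ q i.val T ≠ 0), 1
        ≤ ∑ i ∈ Finset.univ.filter (fun i : Fin n => occ q i.val T ≠ 0), occ q i.val T := by
          apply Finset.sum_le_sum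
          intro i hi
          have := (Finset.mem_filter.1 hi).2
          omega
      _ ≤ ∑ i : Fin n, occ q i.val T :=
          Finset.sum_le_sum_of_subset (Finset.filter_subset _ _)
  apply pow_le_pow_of_le_one
  · positivity
  · apply inv_le_one_of_one_le₀; linarith
  · exact hAs

/-- The free columns read by a formula. -/
noncomputable def reads (g : Fin n → Option (ZMod q)) (T : Fm) : Finset (Fin n) :=
  Finset.univ.filter (fun i => g i = none ∧ occ q i.val T ≠ 0)

omit hq in
theorem rst_reads {p : ℕ} {g : Fin n → Option (ZMod q)} {T : Fm}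
    {ω ω' : Fin n → Bool × ZMod q} (h : ∀ i ∈ reads g T, ω i = ω' i) :
    rst K p g ω T = rst K p g ω' T := by
  apply rst_loc
  intro i h1 h2
  exact h i (by unfold reads; simp [h1, h2])

omit hq in
theorem read_card {k t : ℕ} {g : Fin n → Option (ZMod q)} {f : Fin k → Fm}
    (hocc : ∀ i : Fin n, g i = none → ∑ j, occ q i.val (f j) ≤ t) (s : Finset (Fin k))
    (i : Fin n) : (s.filter (fun j => i ∈ reads g (f j))).card ≤ t := by
  by_cases hg : g i = none
  · refine le_trans ?_ (hocc i hg)
    rw [Finset.card_eq_sum_ones]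
    calc ∑ j ∈ s.filter (fun j => i ∈ reads g (f j)), 1
        ≤ ∑ j ∈ s.filter (fun j => i ∈ reads g (f j)), occ q i.val (f j) := by
          apply Finset.sum_le_sum
          intro j hj
          have := (Finset.mem_filter.1 hj).2
          unfold reads at this
          have := (Finset.mem_filter.1 this).2.2
          omega
      _ ≤ ∑ j, occ q i.val (f j) :=
          Finset.sum_le_sum_of_subset (Finset.subset_univ _)
  · have : s.filter (fun j => i ∈ reads g (f j)) = ∅ := by
      ext j
      simp [reads, hg]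
    rw [this]
    simp

/-- Many small satisfiable children kill a light disjunction. -/
theorem kill_prob {p k t : ℕ} (ht : 0 < t) {g : Fin n → Option (ZMod q)} {f : Fin k → Fm}
    (hocc : ∀ i : Fin n, g i = none → ∑ j, occ q i.val (f j) ≤ t) (s : Finset (Fin k))
    (S1 : ℕ) (hs : ∀ j ∈ s, (f j).size ≤ S1 ∧ Sat p g (f j)) :
    prob (fun ω : Fin n → Bool × ZMod q => ∀ j ∈ s, rst K p g ω (f j) ≠ 1) ≤
      Real.exp (-(((2 * q : ℝ)⁻¹) ^ S1 * s.card / t)) := by
  have h2 := hq.out.two_le
  have h3 : (2 : ℝ) ≤ q := by exact_mod_cast h2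
  have ht' : (0 : ℝ) < t := by exact_mod_cast ht
  set a0 : ℝ := ((2 * q : ℝ)⁻¹) ^ S1 with ha0
  have hF := finner (α := Bool × ZMod q) t ht n s (fun j => reads g (f j))
    (fun j ω => if rst K p g ω (f j) = 1 then 0 else 1)
    (fun j ω => by split_ifs <;> norm_num)
    (fun j ω ω' h => by rw [rst_reads (K := K) (p := p) h])
    (read_card hocc s)
  have e1 : prob (fun ω : Fin n → Bool × ZMod q => ∀ j ∈ s, rst K p g ω (f j) ≠ 1) ≤
      avg (fun ω : Fin n → Bool × ZMod q =>
        ∏ j ∈ s, ((if rst K p g ω (f j) = 1 then (0 : ℝ) else 1)) ^ (1 / (t : ℝ))) := by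
    apply avg_mono
    intro ω
    split_ifs with h
    · rw [Finset.prod_eq_one]
      intro j hj
      rw [if_neg (h j hj), Real.one_rpow]
    · apply Finset.prod_nonneg
      intro j _
      apply Real.rpow_nonneg
      split_ifs <;> norm_num
  refine e1.trans (hF.trans ?_)
  have e2 : ∀ j ∈ s, (avg (fun ω : Fin n → Bool × ZMod q =>
      if rst K p g ω (f j) = 1 then (0 : ℝ) else 1)) ^ (1 / (t : ℝ)) ≤
        Real.exp (-(a0 / t)) := by
    intro j hj
    have h4 : avg (fun ω : Fin n → Bool × ZMod q =>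
        if rst K p g ω (f j) = 1 then (0 : ℝ) else 1) ≤ Real.exp (-a0) := by
      have h5 : avg (fun ω : Fin n → Bool × ZMod q =>
          if rst K p g ω (f j) = 1 then (0 : ℝ) else 1) =
          prob (fun ω : Fin n → Bool × ZMod q => ¬ rst K p g ω (f j) = 1) := by
        unfold prob
        congr 1
        funext ω
        by_cases hh : rst K p g ω (f j) = 1 <;> simp [hh]
      rw [h5, prob_not]
      have h6 := prob_sat (K := K) (hs j hj).2
      have h7 : a0 ≤ ((2 * q : ℝ)⁻¹) ^ (f j).size := by
        rw [ha0]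
        apply pow_le_pow_of_le_one
        · positivity
        · apply inv_le_one_of_one_le₀; linarith
        · exact (hs j hj).1
      have h8 := Real.add_one_le_exp (-a0)
      linarith
    have h9 : (0 : ℝ) ≤ avg (fun ω : Fin n → Bool × ZMod q =>
        if rst K p g ω (f j) = 1 then (0 : ℝ) else 1) :=
      avg_nonneg (fun ω => by split_ifs <;> norm_num)
    calc (avg (fun ω : Fin n → Bool × ZMod q =>
        if rst K p g ω (f j) = 1 then (0 : ℝ) else 1)) ^ (1 / (t : ℝ))
        ≤ (Real.exp (-a0)) ^ (1 / (t : ℝ)) :=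
          Real.rpow_le_rpow h9 h4 (by positivity)
      _ = Real.exp (-(a0 / t)) := by
          rw [← Real.exp_mul]
          congr 1
          ring
  refine (Finset.prod_le_prod (fun j _ => Real.rpow_nonneg
    (avg_nonneg (fun ω => by split_ifs <;> norm_num)) _) e2).trans ?_
  rw [Finset.prod_const, ← Real.exp_nat_mul]
  apply Real.exp_le_exp.2
  apply le_of_eq
  field_simp

/-- The total size of the bad large children of a light gate is small. -/
theorem large_prob {p k t : ℕ} (ht : 0 < t) {g : Fin n → Option (ZMod q)} {f : Fin k → Fm}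
    (hocc : ∀ i : Fin n, g i = none → ∑ j, occ q i.val (f j) ≤ t) (s : Finset (Fin k))
    (Bad : Fin k → (Fin n → Bool × ZMod q) → Prop)
    (hloc : ∀ j ω ω', rst K p g ω (f j) = rst K p g ω' (f j) → Bad j ω → Bad j ω')
    {γ κ ε sz : ℝ} (hγ : 0 < γ) (hε : 0 < ε) (hκ0 : 0 ≤ κ) (hκ : κ ≤ γ * ε / 4)
    (hsz : ((∑ j ∈ s, (f j).size : ℕ) : ℝ) ≤ sz)
    (hS : ∀ j ∈ s, Real.exp (-(γ * (f j).size / 2)) ≤ κ * (f j).size)
    (hIH : ∀ j ∈ s, prob (Bad j) ≤ Real.exp (-(γ * (f j).size))) :
    prob (fun ω : Fin n → Bool × ZMod q =>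
      ε * sz < ((∑ j ∈ s, if Bad j ω then (f j).size else 0 : ℕ) : ℝ)) ≤
      Real.exp (-(γ * ε * sz / (4 * t))) := by
  have ht' : (0 : ℝ) < t := by exact_mod_cast ht
  have hsz0 : 0 ≤ sz := le_trans (Nat.cast_nonneg _) hsz
  set X : (Fin n → Bool × ZMod q) → ℝ := fun ω =>
    ((∑ j ∈ s, if Bad j ω then (f j).size else 0 : ℕ) : ℝ) with hX
  set l : ℝ := γ / (2 * t) with hl
  have hl0 : 0 ≤ l := by rw [hl]; positivity
  set F : Fin k → (Fin n → Bool × ZMod q) → ℝ := fun j ω =>
    Real.exp (γ / 2 * (if Bad j ω then ((f j).size : ℝ) else 0)) with hF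
  have hfin := finner (α := Bool × ZMod q) t ht n s (fun j => reads g (f j)) F
    (fun j ω => (Real.exp_pos _).le)
    (fun j ω ω' h => by
      have h1 := rst_reads (K := K) (p := p) h
      have h2 : Bad j ω ↔ Bad j ω' := ⟨hloc j ω ω' h1, hloc j ω' ω h1.symm⟩
      simp only [hF, h2])
    (read_card hocc s)
  have e1 : ∀ ω, Real.exp (l * X ω) = ∏ j ∈ s, (F j ω) ^ (1 / (t : ℝ)) := by
    intro ω
    have : ∀ j ∈ s, (F j ω) ^ (1 / (t : ℝ)) =
        Real.exp (l * (if Bad j ω then ((f j).size : ℝ) else 0)) := by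
      intro j _
      simp only [hF]
      rw [← Real.exp_mul]
      congr 1
      rw [hl]
      field_simp
    rw [Finset.prod_congr rfl this, ← Real.exp_sum, ← Finset.mul_sum]
    congr 2
    simp only [hX]
    push_cast
    rfl
  have e2 : ∀ j ∈ s, avg (F j) ≤ Real.exp (κ * (f j).size) := by
    intro j hj
    have h1 : avg (F j) ≤ 1 + Real.exp (γ * (f j).size / 2) * prob (Bad j) := by
      have h0 : avg (fun ω : Fin n → Bool × ZMod q =>
          1 + Real.exp (γ * (f j).size / 2) * (if Bad j ω then (1 : ℝ) else 0)) =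
          1 + Real.exp (γ * (f j).size / 2) * prob (Bad j) := by
        rw [avg_add, avg_const, avg_mul_left]
        rfl
      rw [← h0]
      apply avg_mono
      intro ω
      simp only [hF]
      by_cases hb : Bad j ω
      · simp only [hb, if_true, mul_one]
        have : γ / 2 * ((f j).size : ℝ) = γ * (f j).size / 2 := by ring
        rw [this]
        linarith
      · simp only [hb, if_false, mul_zero, Real.exp_zero, add_zero]
        exact le_refl _
    have h2 : Real.exp (γ * (f j).size / 2) * prob (Bad j) ≤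
        Real.exp (-(γ * (f j).size / 2)) := by
      calc Real.exp (γ * (f j).size / 2) * prob (Bad j)
          ≤ Real.exp (γ * (f j).size / 2) * Real.exp (-(γ * (f j).size)) :=
            mul_le_mul_of_nonneg_left (hIH j hj) (Real.exp_pos _).le
        _ = Real.exp (-(γ * (f j).size / 2)) := by
            rw [← Real.exp_add]; congr 1; ring
    have h3 := Real.add_one_le_exp (κ * ((f j).size : ℝ))
    have h4 := hS j hj
    linarith
  have e3 : avg (fun ω => Real.exp (l * X ω)) ≤ Real.exp (κ * sz / t) := by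
    simp only [e1]
    refine hfin.trans ?_
    have h5 : ∀ j ∈ s, (avg (F j)) ^ (1 / (t : ℝ)) ≤ Real.exp (κ * (f j).size / t) := by
      intro j hj
      calc (avg (F j)) ^ (1 / (t : ℝ)) ≤ (Real.exp (κ * (f j).size)) ^ (1 / (t : ℝ)) :=
            Real.rpow_le_rpow (avg_nonneg (fun ω => (Real.exp_pos _).le)) (e2 j hj)
              (by positivity)
        _ = Real.exp (κ * (f j).size / t) := by
            rw [← Real.exp_mul]; congr 1; ring
    refine (Finset.prod_le_prod (fun j _ => Real.rpow_nonneg
      (avg_nonneg (fun ω => (Real.exp_pos _).le)) _) h5).trans ?_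
    rw [← Real.exp_sum]
    apply Real.exp_le_exp.2
    rw [← Finset.sum_div, ← Finset.mul_sum]
    apply div_le_div_of_nonneg_right _ ht'.le
    apply mul_le_mul_of_nonneg_left _ hκ0
    refine le_trans (le_of_eq ?_) hsz
    push_cast
    rfl
  refine (prob_markov X l (ε * sz) _ hl0 e3).trans ?_
  rw [← Real.exp_add]
  apply Real.exp_le_exp.2
  have : -(l * (ε * sz)) + κ * sz / t ≤ -(γ * ε * sz / (4 * t)) := by
    rw [hl]
    have h9 : κ * sz / t ≤ (γ * ε / 4) * sz / t := by
      apply div_le_div_of_nonneg_right _ ht'.le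
      exact mul_le_mul_of_nonneg_right hκ hsz0
    have h10 : -(γ / (2 * t) * (ε * sz)) + (γ * ε / 4) * sz / t = -(γ * ε * sz / (4 * t)) := by
      field_simp
      ring
    linarith
  exact this

end Pool.Agent.Helper21.Lin
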