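import Pool.Agent.Helper21.Lin.Gate

/-!
Formulas of linear size have small degree after a random restriction.
-/

namespace Pool.Agent.Helper21.Lin

open scoped BigOperators Classical
open Pool.Agent.Helper21.AC0p

variable {q : ℕ} [hq : Fact q.Prime] {K : Type} [Field K]
variable {ψ : AddChar (ZMod q) K} (hψ : ψ.IsPrimitive) (hqK : (q : K) ≠ 0)

theorem card_supported {n : ℕ} (H : Finset (Fin n)) :
    (Finset.univ.filter (fun h : Fin n → ZMod q => ∀ i, i ∉ H → h i = 0)).card = q ^ H.card := by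
  have h1 : Finset.univ.filter (fun h : Fin n → ZMod q => ∀ i, i ∉ H → h i = 0) =
      Fintype.piFinset (fun i => if i ∈ H then (Finset.univ : Finset (ZMod q)) else {0}) := by
    ext h
    simp only [Finset.mem_filter, Finset.mem_univ, true_and, Fintype.mem_piFinset]
    constructor
    · intro hh i
      by_cases hi : i ∈ H
      · rw [if_pos hi]; exact Finset.mem_univ _
      · rw [if_neg hi, Finset.mem_singleton]; exact hh i hi
    · intro hh i hi
      have := hh i
      rw [if_neg hi, Finset.mem_singleton] at this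
      exact this
  rw [h1, Fintype.card_piFinset]
  have h2 : ∀ i : Fin n, (if i ∈ H then (Finset.univ : Finset (ZMod q)) else {0}).card =
      if i ∈ H then q else 1 := by
    intro i
    split_ifs
    · rw [Finset.card_univ, ZMod.card]
    · simp
  simp only [h2]
  rw [Finset.prod_ite]
  simp only [Finset.prod_const, one_pow, mul_one]
  congr 2
  ext i; simp

include hψ hqK in
/-- Querying the heavy columns. -/
theorem heavy_step {n p : ℕ} (T : Fm) {s J D0 D : ℕ} {γ2 : ℝ} (hγ2 : 0 < γ2) (hJ : 0 < J)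
    (hJ2 : 4 * Real.log q ≤ γ2 * J) (hT : T.size ≤ s)
    (hlight : ∀ (g' : Fin n → Option (ZMod q)) (t : ℕ), 0 < t →
      (∀ i : Fin n, g' i = none → occ q i.val T ≤ t) →
      prob (fun ω : Fin n → Bool × ZMod q => rst K p g' ω T ∉ (chrFilt ψ n).LD D0) ≤
        Real.exp (-(γ2 * s / t)))
    (hD : (D0 : ℝ) + 2 * s / J ≤ D) (g : Fin n → Option (ZMod q)) :
    prob (fun ω : Fin n → Bool × ZMod q => rst K p g ω T ∉ (chrFilt ψ n).LD D) ≤
      Real.exp (-(γ2 / (2 * 2 ^ J) * s)) := by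
  obtain ⟨j, hj, hjs⟩ := exists_threshold hJ (fun i : Fin n => occ q i.val T)
    ((occ_sum_fin_le q T).trans hT)
  set t : ℕ := 2 ^ (j + 1) with ht
  set H : Finset (Fin n) := Finset.univ.filter (fun i => t ≤ occ q i.val T) with hH
  have ht0 : 0 < t := by rw [ht]; positivity
  have ht' : (0 : ℝ) < t := by exact_mod_cast ht0
  have ht1 : (1 : ℝ) ≤ t := by exact_mod_cast ht0
  have hJ' : (0 : ℝ) < J := by exact_mod_cast hJ
  have hs0 : (0 : ℝ) ≤ s := Nat.cast_nonneg s
  have hHJ : (J : ℝ) * (t * H.card) ≤ 2 * s := by exact_mod_cast hjs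
  have hH0 : (0 : ℝ) ≤ H.card := Nat.cast_nonneg _
  -- degrees
  have hcard : H.card + D0 ≤ D := by
    have h1 : (H.card : ℝ) ≤ 2 * s / J := by
      rw [le_div_iff₀ hJ']
      calc (H.card : ℝ) * J = J * (1 * H.card) := by ring
        _ ≤ J * (t * H.card) := by
            apply mul_le_mul_of_nonneg_left _ hJ'.le
            exact mul_le_mul_of_nonneg_right ht1 hH0
        _ ≤ 2 * s := hHJ
    have h2 : (H.card : ℝ) + D0 ≤ D := by linarith
    exact_mod_cast h2
  have h1 : prob (fun ω : Fin n → Bool × ZMod q => rst K p g ω T ∉ (chrFilt ψ n).LD D) ≤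
      prob (fun ω : Fin n → Bool × ZMod q =>
        ∃ h ∈ Finset.univ.filter (fun h : Fin n → ZMod q => ∀ i, i ∉ H → h i = 0),
          rst K p (ext H h g) ω T ∉ (chrFilt ψ n).LD D0) := by
    apply prob_mono
    intro ω hω
    by_contra hcon
    push Not at hcon
    apply hω
    refine (chrFilt ψ n).mono hcard (rst_mem_of_ext hψ hqK p g ω T H D0 ?_)
    intro h hh
    exact hcon h (by simpa using hh)
  refine h1.trans ((prob_exists_le _ _).trans ?_)
  have h2 : ∀ h ∈ Finset.univ.filter (fun h : Fin n → ZMod q => ∀ i, i ∉ H → h i = 0),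
      prob (fun ω : Fin n → Bool × ZMod q => rst K p (ext H h g) ω T ∉ (chrFilt ψ n).LD D0) ≤
        Real.exp (-(γ2 * s / t)) := by
    intro h _
    apply hlight _ t ht0
    intro i hi
    by_cases hiH : i ∈ H
    · simp [ext, hiH] at hi
    · rw [hH, Finset.mem_filter] at hiH
      have : ¬ t ≤ occ q i.val T := fun h => hiH ⟨Finset.mem_univ _, h⟩
      omega
  refine (Finset.sum_le_sum h2).trans ?_
  rw [Finset.sum_const, card_supported, nsmul_eq_mul]
  have hq2 := hq.out.two_le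
  have hq0 : (0 : ℝ) < q := by exact_mod_cast (by omega : 0 < q)
  have h3 : ((q ^ H.card : ℕ) : ℝ) = Real.exp (H.card * Real.log q) := by
    push_cast
    rw [Real.exp_nat_mul, Real.exp_log hq0]
  rw [h3, ← Real.exp_add]
  apply Real.exp_le_exp.2
  have hlog : 0 ≤ Real.log q := Real.log_nonneg (by exact_mod_cast (by omega : 1 ≤ q))
  have h4 : (H.card : ℝ) * Real.log q ≤ γ2 * s / (2 * t) := by
    rw [le_div_iff₀ (by positivity)]
    have h5 : (H.card : ℝ) * Real.log q * (2 * t) * J ≤ (γ2 * s) * J := by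
      calc (H.card : ℝ) * Real.log q * (2 * t) * J
          = (2 * Real.log q) * (J * (t * H.card)) := by ring
        _ ≤ (2 * Real.log q) * (2 * s) := mul_le_mul_of_nonneg_left hHJ (by positivity)
        _ = (4 * Real.log q) * s := by ring
        _ ≤ (γ2 * J) * s := mul_le_mul_of_nonneg_right hJ2 hs0
        _ = (γ2 * s) * J := by ring
    exact le_of_mul_le_mul_right h5 hJ'
  have h6 : γ2 / (2 * 2 ^ J) * s ≤ γ2 * s / (2 * t) := by
    have h7 : (t : ℝ) ≤ 2 ^ J := by
      have : t ≤ 2 ^ J := by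
        rw [ht]
        exact Nat.pow_le_pow_right (by norm_num) (by omega)
      exact_mod_cast this
    have h8 : γ2 / (2 * 2 ^ J) * s = (γ2 * s) / (2 * 2 ^ J) := by ring
    rw [h8]
    apply div_le_div_of_nonneg_left
    · positivity
    · positivity
    · linarith
  have h9 : γ2 * s / t = γ2 * s / (2 * t) + γ2 * s / (2 * t) := by
    field_simp
    ring
  linarith

include hψ hqK in
/-- The shrinkage lemma. -/
theorem shrink (p : ℕ) [hp : Fact p.Prime] [CharP K p] (k : ℕ) :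
    ∀ ε : ℝ, 0 < ε → ∃ γ : ℝ, 0 < γ ∧ ∃ M : ℕ, ∀ (n : ℕ) (T : Fm), T.depth ≤ k →
      ∀ s : ℕ, T.size ≤ s → M ≤ s → ∀ (g : Fin n → Option (ZMod q)) (D : ℕ), ε * s ≤ D →
        prob (fun ω : Fin n → Bool × ZMod q => rst K p g ω T ∉ (chrFilt ψ n).LD D) ≤
          Real.exp (-(γ * s)) := by
  have hvar : ∀ (ε : ℝ), 0 < ε → ∀ (n i s : ℕ), ⌈1 / ε⌉₊ ≤ s → ∀ (g : Fin n → Option (ZMod q))
      (D : ℕ), ε * s ≤ D → ∀ γ : ℝ,
        prob (fun ω : Fin n → Bool × ZMod q => rst K p g ω (.var i) ∉ (chrFilt ψ n).LD D) ≤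
          Real.exp (-(γ * s)) := by
    intro ε hε n i s hs g D hD γ
    have h1 : (1 : ℝ) ≤ D := by
      have h2 : 1 / ε ≤ s := (Nat.le_ceil _).trans (by exact_mod_cast hs)
      rw [div_le_iff₀ hε] at h2
      linarith
    have h1' : 1 ≤ D := by exact_mod_cast h1
    have h3 : prob (fun ω : Fin n → Bool × ZMod q =>
        rst K p g ω (.var i) ∉ (chrFilt ψ n).LD D) ≤ prob (fun _ : Fin n → Bool × ZMod q => False) := by
      apply prob_mono
      intro ω hω
      apply hω
      exact (chrFilt ψ n).mono h1' (rst_mem_size hψ hqK p g ω (.var i))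
    rw [prob_false] at h3
    exact h3.trans (Real.exp_pos _).le
  induction k with
  | zero =>
    intro ε hε
    refine ⟨1, one_pos, ⌈1 / ε⌉₊, ?_⟩
    intro n T hT s _ hMs g D hD
    cases T with
    | var i => exact hvar ε hε n i s hMs g D hD 1
    | neg A => simp [Fm.depth] at hT
    | or k f => simp [Fm.depth] at hT
    | mod k f => simp [Fm.depth] at hT
  | succ k ih =>
    intro ε hε
    have hp2 := hp.out.two_le
    have hp1 : (1 : ℝ) ≤ ((p - 1 : ℕ) : ℝ) := by exact_mod_cast (by omega : 1 ≤ p - 1)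
    set e : ℝ := ε / (16 * ((p - 1 : ℕ) : ℝ)) with he
    have he0 : 0 < e := by rw [he]; positivity
    have he1 : 16 * (((p - 1 : ℕ) : ℝ) * e) = ε := by
      rw [he]; field_simp
    have he2 : 16 * e ≤ ε := by
      have : e ≤ ((p - 1 : ℕ) : ℝ) * e := by nlinarith
      linarith
    obtain ⟨γ1, hγ1, M1, hM1⟩ := ih e he0
    -- the constants
    set κ : ℝ := γ1 * e / 4 with hκ
    have hκ0 : 0 < κ := by rw [hκ]; positivity
    obtain ⟨S1, hS1a, hS1b, hS1c, hS1d⟩ : ∃ S1 : ℕ, M1 ≤ S1 ∧ 1 ≤ S1 ∧ 1 ≤ e * S1 ∧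
        -(γ1 * S1 / 2) ≤ Real.log κ := by
      refine ⟨max M1 (max 1 (max ⌈1 / e⌉₊ ⌈-(Real.log κ) * 2 / γ1⌉₊)), le_max_left _ _, ?_, ?_, ?_⟩
      · exact le_trans (le_max_left 1 _) (le_max_right _ _)
      · have h1 : ⌈1 / e⌉₊ ≤ max M1 (max 1 (max ⌈1 / e⌉₊ ⌈-(Real.log κ) * 2 / γ1⌉₊)) :=
          le_trans (le_max_left _ _) (le_trans (le_max_right _ _) (le_max_right _ _))
        have h2 : 1 / e ≤ ((max M1 (max 1 (max ⌈1 / e⌉₊ ⌈-(Real.log κ) * 2 / γ1⌉₊)) : ℕ) : ℝ) :=
          (Nat.le_ceil _).trans (by exact_mod_cast h1)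
        rw [div_le_iff₀ he0] at h2
        linarith
      · have h1 : ⌈-(Real.log κ) * 2 / γ1⌉₊ ≤
            max M1 (max 1 (max ⌈1 / e⌉₊ ⌈-(Real.log κ) * 2 / γ1⌉₊)) :=
          le_trans (le_max_right _ _) (le_trans (le_max_right _ _) (le_max_right _ _))
        have h2 : -(Real.log κ) * 2 / γ1 ≤
            ((max M1 (max 1 (max ⌈1 / e⌉₊ ⌈-(Real.log κ) * 2 / γ1⌉₊)) : ℕ) : ℝ) :=
          (Nat.le_ceil _).trans (by exact_mod_cast h1)
        rw [div_le_iff₀ hγ1] at h2
        linarith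
    have hS1pos : (0 : ℝ) < S1 := by exact_mod_cast (by omega : 0 < S1)
    have hC : Consts q S1 γ1 e κ := by
      refine ⟨hγ1, he0, hκ0.le, le_refl _, ?_, hS1c⟩
      intro s hs
      have hs' : (S1 : ℝ) ≤ s := by exact_mod_cast hs
      have hs1 : (1 : ℝ) ≤ s := by
        have : (1 : ℝ) ≤ S1 := by exact_mod_cast hS1b
        linarith
      calc Real.exp (-(γ1 * s / 2)) ≤ Real.exp (Real.log κ) := by
            apply Real.exp_le_exp.2
            refine le_trans ?_ hS1d
            have : γ1 * S1 ≤ γ1 * s := mul_le_mul_of_nonneg_left hs' hγ1.le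
            linarith
        _ = κ := Real.exp_log hκ0
        _ ≤ κ * s := by nlinarith
    have hq2 := hq.out.two_le
    have hq0 : (0 : ℝ) < q := by exact_mod_cast (by omega : 0 < q)
    set γ2 : ℝ := min (γ1 * e / 4) (((2 * q : ℝ)⁻¹) ^ S1 * e / S1) with hγ2
    have hγ20 : 0 < γ2 := by
      rw [hγ2]
      apply lt_min
      · positivity
      · positivity
    obtain ⟨J, hJ0, hJ1, hJ2⟩ : ∃ J : ℕ, 0 < J ∧ 4 * Real.log q ≤ γ2 * J ∧ 4 ≤ ε * J := by
      refine ⟨max 1 (max ⌈4 * Real.log q / γ2⌉₊ ⌈4 / ε⌉₊), ?_, ?_, ?_⟩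
      · exact lt_of_lt_of_le one_pos (le_max_left _ _)
      · have h1 : ⌈4 * Real.log q / γ2⌉₊ ≤ max 1 (max ⌈4 * Real.log q / γ2⌉₊ ⌈4 / ε⌉₊) :=
          le_trans (le_max_left _ _) (le_max_right _ _)
        have h2 : 4 * Real.log q / γ2 ≤
            ((max 1 (max ⌈4 * Real.log q / γ2⌉₊ ⌈4 / ε⌉₊) : ℕ) : ℝ) :=
          (Nat.le_ceil _).trans (by exact_mod_cast h1)
        rw [div_le_iff₀ hγ20] at h2
        linarith
      · have h1 : ⌈4 / ε⌉₊ ≤ max 1 (max ⌈4 * Real.log q / γ2⌉₊ ⌈4 / ε⌉₊) :=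
          le_trans (le_max_right _ _) (le_max_right _ _)
        have h2 : 4 / ε ≤ ((max 1 (max ⌈4 * Real.log q / γ2⌉₊ ⌈4 / ε⌉₊) : ℕ) : ℝ) :=
          (Nat.le_ceil _).trans (by exact_mod_cast h1)
        rw [div_le_iff₀ hε] at h2
        linarith
    have hJ' : (0 : ℝ) < J := by exact_mod_cast hJ0
    set M : ℕ := max M1 (max ⌈1 / ε⌉₊ ⌈16 * ((S1 + 2) * ((p - 1 : ℕ) : ℝ)) / ε⌉₊) with hM
    refine ⟨min γ1 (γ2 / (2 * 2 ^ J)), lt_min hγ1 (by positivity), M, ?_⟩
    intro n T hT s hTs hMs g D hD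
    have hs0 : (0 : ℝ) ≤ s := Nat.cast_nonneg s
    have hMs1 : M1 ≤ s := le_trans (le_max_left _ _) hMs
    have hMs2 : ⌈1 / ε⌉₊ ≤ s :=
      le_trans (le_max_left _ _) (le_trans (le_max_right _ _) hMs)
    have hMs3 : 16 * ((S1 + 2) * ((p - 1 : ℕ) : ℝ)) ≤ ε * s := by
      have h1 : ⌈16 * ((S1 + 2) * ((p - 1 : ℕ) : ℝ)) / ε⌉₊ ≤ s :=
        le_trans (le_max_right _ _) (le_trans (le_max_right _ _) hMs)
      have h2 : 16 * ((S1 + 2) * ((p - 1 : ℕ) : ℝ)) / ε ≤ s :=
        (Nat.le_ceil _).trans (by exact_mod_cast h1)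
      rw [div_le_iff₀ hε] at h2
      linarith
    have hfin : ∀ γ : ℝ, min γ1 (γ2 / (2 * 2 ^ J)) ≤ γ →
        Real.exp (-(γ * s)) ≤ Real.exp (-(min γ1 (γ2 / (2 * 2 ^ J)) * s)) := by
      intro γ hγ
      apply Real.exp_le_exp.2
      have := mul_le_mul_of_nonneg_right hγ hs0
      linarith
    -- degree bookkeeping
    have h2J : 2 * (s : ℝ) / J ≤ ε * s / 2 := by
      rw [div_le_iff₀ hJ']
      nlinarith
    cases T with
    | var i => exact hvar ε hε n i s hMs2 g D hD _
    | neg A =>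
      have hA : A.depth ≤ k := by simp only [Fm.depth] at hT; omega
      have hAs : A.size ≤ s := by simp only [Fm.size] at hTs; omega
      have heD : e * s ≤ D := by
        have : e * s ≤ ε * s := mul_le_mul_of_nonneg_right (by linarith) hs0
        linarith
      have h1 := hM1 n A hA s hAs hMs1 g D heD
      refine le_trans (prob_mono ?_) (h1.trans (hfin γ1 (min_le_left _ _)))
      intro ω hω hmem
      apply hω
      rw [rst_neg]
      exact Submodule.sub_mem _ ((chrFilt ψ n).one_mem' _) hmem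
    | or m f =>
      have hdep : ∀ j, (f j).depth ≤ k := by
        intro j
        simp only [Fm.depth] at hT
        have h1 : (Finset.univ.sup fun i => (f i).depth) ≤ k := by omega
        exact (Finset.le_sup (f := fun i => (f i).depth) (Finset.mem_univ j)).trans h1
      have hsum : ∑ j, (f j).size ≤ s := by simp only [Fm.size] at hTs; omega
      have h1 := heavy_step (p := p) hψ hqK (Fm.or m f) (D0 := ⌈4 * e * s⌉₊) (D := D) hγ20 hJ0
        hJ1 hTs ?_ ?_ g
      · exact h1.trans (hfin _ (min_le_right _ _))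
      · intro g' t ht hocc
        exact light_or hψ hqK hC ht hocc hsum
          (fun j hj D' hD' => hM1 n (f j) (hdep j) _ (le_refl _) (hS1a.trans hj) g' D' hD')
          (Nat.le_ceil _)
      · have h2 : ((⌈4 * e * s⌉₊ : ℕ) : ℝ) ≤ 4 * e * s + 1 :=
          (Nat.ceil_lt_add_one (by positivity)).le
        have h3 : 4 * e * s ≤ ε * s / 4 := by nlinarith
        have h4 : (1 : ℝ) ≤ ε * s / 4 := by
          have h5 : (0 : ℝ) ≤ S1 := hS1pos.le
          nlinarith
        linarith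
    | mod m f =>
      have hdep : ∀ j, (f j).depth ≤ k := by
        intro j
        simp only [Fm.depth] at hT
        have h1 : (Finset.univ.sup fun i => (f i).depth) ≤ k := by omega
        exact (Finset.le_sup (f := fun i => (f i).depth) (Finset.mem_univ j)).trans h1
      have hsum : ∑ j, (f j).size ≤ s := by simp only [Fm.size] at hTs; omega
      have h1 := heavy_step (p := p) hψ hqK (Fm.mod m f)
        (D0 := (p - 1) * (S1 + ⌈e * s⌉₊ + 1)) (D := D) hγ20 hJ0 hJ1 hTs ?_ ?_ g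
      · exact h1.trans (hfin _ (min_le_right _ _))
      · intro g' t ht hocc
        refine light_mod hψ hqK hC ht hocc hsum
          (fun j hj D' hD' => hM1 n (f j) (hdep j) _ (le_refl _) (hS1a.trans hj) g' D' hD')
          (D' := S1 + ⌈e * s⌉₊ + 1) (by omega) ?_ (le_refl _)
        push_cast
        have := Nat.le_ceil (e * (s : ℝ))
        linarith
      · push_cast
        have h2 : ((⌈e * s⌉₊ : ℕ) : ℝ) ≤ e * s + 1 := (Nat.ceil_lt_add_one (by positivity)).le
        have h3 : ((p - 1 : ℕ) : ℝ) * (S1 + (⌈e * s⌉₊ : ℝ) + 1) ≤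
            ((p - 1 : ℕ) : ℝ) * ((S1 + 2) + e * s) := by
          apply mul_le_mul_of_nonneg_left _ (by linarith)
          linarith
        have h4 : ((p - 1 : ℕ) : ℝ) * ((S1 + 2) + e * s) =
            (S1 + 2) * ((p - 1 : ℕ) : ℝ) + (((p - 1 : ℕ) : ℝ) * e) * s := by ring
        have h5 : (((p - 1 : ℕ) : ℝ) * e) * s = ε * s / 16 := by
          rw [← he1]; ring
        rw [h4, h5] at h3
        linarith

end Pool.Agent.Helper21.Lin
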