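import Pool.Agent.Helper21.Lin.SemSim
import Pool.Agent.Helper21.Lin.Shrink

/-!
Refutations with lines of linear size.
-/

namespace Pool.Agent.Helper21.Lin

open scoped BigOperators Classical
open Pool.Agent.Helper21.AC0p

theorem pow_big (V : ℕ) (hV : 60 ≤ V) : 2 ^ 48 * V ≤ 2 ^ (V - 1) := by
  induction V, hV using Nat.le_induction with
  | base => norm_num
  | succ V hV ih =>
    have h1 : V + 1 - 1 = (V - 1) + 1 := by omega
    rw [h1, pow_succ]
    have h2 : 2 ^ 48 * (V + 1) ≤ 2 ^ 48 * V * 2 := by nlinarith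
    omega

/-- The parameter `V` for `n` columns. -/
def par (n : ℕ) : ℕ := Nat.clog 2 (4 * (n + 1))

theorem le_pow_par (n : ℕ) : 4 * (n + 1) ≤ 2 ^ par n := Nat.le_pow_clog (by norm_num) _

theorem pow_par_lt (n : ℕ) : 2 ^ (par n - 1) < 4 * (n + 1) := by
  have := Nat.pow_pred_clog_lt_self (b := 2) (by norm_num) (x := 4 * (n + 1)) (by omega)
  exact this

theorem one_le_par (n : ℕ) : 1 ≤ par n := by
  unfold par
  have := Nat.clog_pos (b := 2) (by norm_num) (n := 4 * (n + 1)) (by omega)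
  exact this

theorem pow_par_le (n : ℕ) : 2 ^ par n ≤ 8 * (n + 1) := by
  have h1 := pow_par_lt n
  have h2 := one_le_par n
  have h3 : par n = (par n - 1) + 1 := by omega
  rw [h3, pow_succ]
  omega

theorem par_small {n : ℕ} (hn : 2 ^ 45 * 60 ≤ n) : 2 ^ 45 * par n ≤ n := by
  by_contra hcon
  push Not at hcon
  by_cases hV : 60 ≤ par n
  · have h1 := pow_big (par n) hV
    have h2 := pow_par_lt n
    have h3 : 4 * (n + 1) ≤ 4 * (2 ^ 45 * par n) := by omega
    have h4 : 4 * (2 ^ 45 * par n) ≤ 2 ^ 48 * par n := by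
      have : 4 * (2 ^ 45 * par n) = 2 ^ 47 * par n := by ring
      rw [this]
      exact Nat.mul_le_mul_right _ (by norm_num)
    omega
  · push Not at hV
    have : 2 ^ 45 * par n ≤ 2 ^ 45 * 60 := Nat.mul_le_mul_left _ hV.le
    omega

theorem par_le_log (n : ℕ) : par n ≤ 4 * Nat.log 2 (n + 2) := by
  have h1 := pow_par_lt n
  have h2 : 1 ≤ Nat.log 2 (n + 2) := by
    apply Nat.le_log_of_pow_le (by norm_num)
    omega
  have h3 : n + 2 < 2 ^ (Nat.log 2 (n + 2) + 1) := Nat.lt_pow_succ_log_self (by norm_num) _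
  have h4 : 2 ^ (par n - 1) < 2 ^ (Nat.log 2 (n + 2) + 3) := by
    calc 2 ^ (par n - 1) < 4 * (n + 1) := h1
      _ ≤ 4 * 2 ^ (Nat.log 2 (n + 2) + 1) := by omega
      _ = 2 ^ (Nat.log 2 (n + 2) + 3) := by rw [pow_add, pow_add]; ring
  have h5 := (Nat.pow_lt_pow_iff_right (by norm_num : 1 < 2)).1 h4
  omega

theorem arith9 {X Y n n1 : ℕ} (hXY : 32 * X = Y) (hX : 1 ≤ X) (h : Y ≤ n)
    (h' : n ≤ 2 * n1 + 1) : 4 * X ≤ n1 := by
  omega

theorem arith10 {n1 B X E F Z G : ℕ} (h4 : n1 < B + X) (h6 : B ≤ E) (h7 : E = F + Z)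
    (h8 : 4 * X ≤ n1) (h9 : 4 * Z ≤ n1) (h11 : G = 2 * F) : n1 ≤ G := by
  omega

/-- The probabilistic core. -/
theorem lines_core {q : ℕ} [hq : Fact q.Prime] {K : Type} [Field K]
    {ψ : AddChar (ZMod q) K} (hψ : ψ.IsPrimitive) (hqK : (q : K) ≠ 0) {p a n D s V : ℕ} {γ : ℝ}
    (hV1 : 1 ≤ V) (hVn : 2 ^ 45 * V ≤ n) (hpow : 4 * (n + 1) ≤ 2 ^ V)
    (f : Fin (n + 1) × Fin (16 * V) → Fin n) (rhs : Fin (n + 1) → ZMod q)
    (hf : ∀ S : Finset (Fin (n + 1)), S.Nonempty → S.card * (16 * V) * 2 ^ 32 ≤ n →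
      S.card * (15 * V) ≤ (nb f S).card)
    (hD : (a + 1) * D ≤ n / (2 ^ 37 * V) * V)
    {π : List Fm} (hπ : SemRefutation p a (sysW q f rhs) π)
    (hbad : ∀ A ∈ π, prob (fun ω : Fin n → Bool × ZMod q =>
      rst K p (nog q n) ω A ∉ (chrFilt ψ n).LD D) ≤ Real.exp (-(γ * s))) :
    (1 / 2 : ℝ) ≤ π.length * Real.exp (-(γ * s)) := by
  set ρ := n / (2 ^ 37 * V) with hρ
  have hden : 0 < 2 ^ 37 * V := by positivity
  have hρV : 2 ^ 8 ≤ ρ := by
    rw [hρ, Nat.le_div_iff_mul_le hden]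
    calc 2 ^ 8 * (2 ^ 37 * V) = 2 ^ 45 * V := by ring
      _ ≤ n := hVn
  have hρ1 : 1 ≤ ρ := le_trans (by norm_num) hρV
  have hρn : 2 * ρ * (16 * V) * 2 ^ 32 ≤ n := by
    have h1 : ρ * (2 ^ 37 * V) ≤ n := Nat.div_mul_le_self _ _
    calc 2 * ρ * (16 * V) * 2 ^ 32 = ρ * (2 ^ 37 * V) := by ring
      _ ≤ n := h1
  have hw : 2 * (16 * V) ≤ ρ * V := by
    calc 2 * (16 * V) = 32 * V := by ring
      _ ≤ ρ * V := Nat.mul_le_mul_right _ (le_trans (by norm_num) hρV)
  -- for every good restriction there is a bad line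
  have hgood : ∀ ω : Fin n → Bool × ZMod q, (∀ r, 4 * V ≤ alive (nb f {r}) ω) →
      ∃ A ∈ π, rst K p (nog q n) ω A ∉ (chrFilt ψ n).LD D := by
    intro ω hω
    have hE : Expands (matW q f (fun i => (ω i).1)) ρ (ρ * V) :=
      expands_matW f _ hV1 hρ1 hρn (le_refl _) hf (fun r => hω r)
    have hhard := sysW_lower hψ hqK p ω f rhs hw hE
    refine no_sem_refutation ω ?_ hD hhard hπ
    intro C hC
    rw [mem_sysW] at hC
    obtain ⟨r, b, _, rfl⟩ := hC
    exact (chrFilt ψ n).mono (by omega) (rst_clause_mem p ω f r b hψ hqK)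
  have h1 : (1 : ℝ) ≤ prob (fun ω : Fin n → Bool × ZMod q =>
      (∃ r ∈ (Finset.univ : Finset (Fin (n + 1))), alive (nb f {r}) ω < 4 * V)) +
      prob (fun ω : Fin n → Bool × ZMod q => ∃ A ∈ π.toFinset,
        rst K p (nog q n) ω A ∉ (chrFilt ψ n).LD D) := by
    rw [← prob_true (α := Bool × ZMod q) (n := n)]
    refine le_trans (prob_mono ?_) (prob_or_le _ _)
    intro ω _
    by_cases h : ∀ r, 4 * V ≤ alive (nb f {r}) ω
    · right
      obtain ⟨A, hA, hb⟩ := hgood ω h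
      exact ⟨A, List.mem_toFinset.2 hA, hb⟩
    · left
      push Not at h
      obtain ⟨r, hr⟩ := h
      exact ⟨r, Finset.mem_univ _, hr⟩
  have h2 : prob (fun ω : Fin n → Bool × ZMod q =>
      (∃ r ∈ (Finset.univ : Finset (Fin (n + 1))), alive (nb f {r}) ω < 4 * V)) ≤ 1 / 2 := by
    refine (prob_exists_le _ _).trans ?_
    have h3 : ∀ r ∈ (Finset.univ : Finset (Fin (n + 1))),
        prob (fun ω : Fin n → Bool × ZMod q => alive (nb f {r}) ω < 4 * V) ≤ (1 / 4 : ℝ) ^ V := by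
      intro r _
      apply prob_alive_lt
      have h4 := hf {r} (Finset.singleton_nonempty r) ?_
      · rw [Finset.card_singleton, one_mul] at h4; exact h4
      · rw [Finset.card_singleton]
        calc 1 * (16 * V) * 2 ^ 32 ≤ 2 ^ 45 * V := by
              have : 1 * (16 * V) * 2 ^ 32 = 2 ^ 36 * V := by ring
              rw [this]
              exact Nat.mul_le_mul_right _ (by norm_num)
          _ ≤ n := hVn
    refine (Finset.sum_le_sum h3).trans ?_
    rw [Finset.sum_const, Finset.card_univ, Fintype.card_fin, nsmul_eq_mul]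
    have h5 : (4 * ((n + 1 : ℕ) : ℝ)) ≤ 2 ^ V := by exact_mod_cast hpow
    have h6 : (1 / 4 : ℝ) ^ V ≤ (1 / 2 : ℝ) ^ V := pow_le_pow_left₀ (by norm_num) (by norm_num) V
    have h7 : (1 / 2 : ℝ) ^ V * 2 ^ V = 1 := by rw [← mul_pow]; norm_num
    have h8 : (0 : ℝ) ≤ ((n + 1 : ℕ) : ℝ) := Nat.cast_nonneg _
    calc ((n + 1 : ℕ) : ℝ) * (1 / 4 : ℝ) ^ V ≤ ((n + 1 : ℕ) : ℝ) * (1 / 2 : ℝ) ^ V :=
          mul_le_mul_of_nonneg_left h6 h8
      _ ≤ (2 ^ V / 4) * (1 / 2 : ℝ) ^ V := by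
          apply mul_le_mul_of_nonneg_right _ (by positivity)
          linarith
      _ = 1 / 4 := by
          have : (2 ^ V / 4) * (1 / 2 : ℝ) ^ V = ((1 / 2 : ℝ) ^ V * 2 ^ V) / 4 := by ring
          rw [this, h7]
      _ ≤ 1 / 2 := by norm_num
  have h3 : prob (fun ω : Fin n → Bool × ZMod q => ∃ A ∈ π.toFinset,
        rst K p (nog q n) ω A ∉ (chrFilt ψ n).LD D) ≤ π.length * Real.exp (-(γ * s)) := by
    refine (prob_exists_le _ _).trans ?_
    refine (Finset.sum_le_sum (fun A hA => hbad A (List.mem_toFinset.1 hA))).trans ?_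
    rw [Finset.sum_const, nsmul_eq_mul]
    apply mul_le_mul_of_nonneg_right _ (Real.exp_pos _).le
    exact_mod_cast List.toFinset_card_le π
  linarith

set_option maxHeartbeats 4000000 in
/-- Lower bound for refutations with lines of linear size. -/
theorem linear_lines (p : ℕ) (hp : p.Prime) :
    ∃ (c : ℕ) (F : ℕ → List Clause),
      (∀ n, (∀ C ∈ F n, C.length ≤ c * Nat.log 2 (n + 2) ∧ ∀ l ∈ C, l.1 < n) ∧
        (F n).length ≤ (n + 2) ^ c ∧ Unsat (F n)) ∧
      ∀ a d k : ℕ, ∃ γ : ℝ, 0 < γ ∧ ∃ n₀ : ℕ, ∀ n : ℕ, n₀ ≤ n → ∀ π : List Fm,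
        SemRefutation p a (F n) π → (∀ A ∈ π, A.depth ≤ d ∧ A.size ≤ k * n) →
          (2 : ℝ) ^ (γ * n) ≤ π.length := by
  have : Fact p.Prime := ⟨hp⟩
  obtain ⟨q, hq, hqp, hq3⟩ : ∃ q : ℕ, q.Prime ∧ q ≠ p ∧ q ≤ 3 := by
    by_cases h : p = 2
    · exact ⟨3, Nat.prime_three, by omega, le_refl _⟩
    · exact ⟨2, Nat.prime_two, fun h' => h h'.symm, by norm_num⟩
  have : Fact q.Prime := ⟨hq⟩
  have hq2 := hq.two_le
  have hne : ((q : ℕ) : ZMod p) ≠ 0 := by
    rw [Ne, ZMod.natCast_eq_zero_iff]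
    intro h
    exact hqp ((Nat.prime_dvd_prime_iff_eq hp hq).1 h).symm
  have : NeZero ((q : ℕ) : ZMod p) := ⟨hne⟩
  obtain ⟨ζ, hζ⟩ := HasEnoughRootsOfUnity.exists_primitiveRoot (AlgebraicClosure (ZMod p)) q
  have hψ := AddChar.zmodChar_primitive_of_primitive_root q hζ
  set ψ := AddChar.zmodChar q ((IsPrimitiveRoot.iff_def ζ q).mp hζ).left with hψdef
  have hqK : ((q : ℕ) : AlgebraicClosure (ZMod p)) ≠ 0 := by
    intro h
    apply hne
    have := (algebraMap (ZMod p) (AlgebraicClosure (ZMod p))).injective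
    apply this
    simpa using h
  -- the formulas
  have main : ∀ n, ∃ F : List Clause,
      ((∀ C ∈ F, C.length ≤ 129 * Nat.log 2 (n + 2) ∧ ∀ l ∈ C, l.1 < n) ∧
        F.length ≤ (n + 2) ^ 129 ∧ Unsat F) ∧
      (1 ≤ n / (q - 1) → ∃ (f : Fin (n / (q - 1) + 1) × Fin (16 * par (n / (q - 1))) →
          Fin (n / (q - 1))) (rhs : Fin (n / (q - 1) + 1) → ZMod q), F = sysW q f rhs ∧
          ∀ S : Finset (Fin (n / (q - 1) + 1)), S.Nonempty →
            S.card * (16 * par (n / (q - 1))) * 2 ^ 32 ≤ n / (q - 1) →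
              S.card * (15 * par (n / (q - 1))) ≤ (nb f S).card) := by
    intro n
    set n1 := n / (q - 1) with hn1
    have hn1n : n1 ≤ n := Nat.div_le_self _ _
    by_cases hn : 1 ≤ n1
    · obtain ⟨f, hf⟩ := exists_logExp (m := n1 + 1) (n := n1) (V := par n1) (by omega) (by
        refine (le_pow_par n1).trans ?_
        apply Nat.pow_le_pow_right (by norm_num)
        omega)
      obtain ⟨rhs, hrhs⟩ := exists_rhsW (q := q) f
      refine ⟨sysW q f rhs, ⟨?_, ?_, unsat_sysW hrhs⟩, fun _ => ⟨f, rhs, rfl, hf⟩⟩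
      · intro C hC
        rw [mem_sysW] at hC
        obtain ⟨r, a, _, rfl⟩ := hC
        refine ⟨?_, ?_⟩
        · rw [length_rowClW]
          have h1 := par_le_log n1
          have h2 : Nat.log 2 (n1 + 2) ≤ Nat.log 2 (n + 2) := Nat.log_mono_right (by omega)
          have h3 : 16 * par n1 * (q - 1) ≤ 16 * par n1 * 2 := Nat.mul_le_mul_left _ (by omega)
          omega
        · intro l hl
          rw [mem_rowClW] at hl
          obtain ⟨t, j, rfl⟩ := hl
          exact lt_of_lt_of_le (bitVar_lt hq2 (f (r, t)).isLt j.isLt) (Nat.div_mul_le_self _ _)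
      · refine length_sysW.trans ?_
        have h1 : 2 ^ (16 * par n1 * (q - 1)) ≤ 2 ^ (par n1 * 32) :=
          Nat.pow_le_pow_right (by norm_num) (by
            have h3 : 16 * par n1 * (q - 1) ≤ 16 * par n1 * 2 := Nat.mul_le_mul_left _ (by omega)
            omega)
        have h2 : 2 ^ (par n1 * 32) ≤ (8 * (n1 + 1)) ^ 32 := by
          rw [pow_mul]
          exact Nat.pow_le_pow_left (pow_par_le n1) 32
        have h3 : (8 * (n1 + 1)) ^ 32 ≤ (n + 2) ^ 128 := by
          have h4 : 8 * (n1 + 1) ≤ (n + 2) ^ 4 := by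
            have h5 : 2 ^ 3 ≤ (n + 2) ^ 3 := Nat.pow_le_pow_left (by omega) 3
            calc 8 * (n1 + 1) ≤ 2 ^ 3 * (n + 2) := by omega
              _ ≤ (n + 2) ^ 3 * (n + 2) := Nat.mul_le_mul_right _ h5
              _ = (n + 2) ^ 4 := by ring
          calc (8 * (n1 + 1)) ^ 32 ≤ ((n + 2) ^ 4) ^ 32 := Nat.pow_le_pow_left h4 32
            _ = (n + 2) ^ 128 := by rw [← pow_mul]
        calc (n1 + 1) * 2 ^ (16 * par n1 * (q - 1)) ≤ (n + 2) * (n + 2) ^ 128 :=
              Nat.mul_le_mul (by omega) (h1.trans (h2.trans h3))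
          _ = (n + 2) ^ 129 := by ring
    · refine ⟨[[]], ⟨?_, ?_, ?_⟩, fun h => absurd h hn⟩
      · intro C hC
        rw [List.mem_singleton] at hC
        subst hC
        simp
      · simp only [List.length_singleton]
        exact Nat.one_le_pow _ _ (by omega)
      · intro v
        exact ⟨[], by simp, by simp⟩
  choose F hF1 hF2 using main
  refine ⟨129, F, hF1, ?_⟩
  intro a d k
  -- constants
  set k1 : ℕ := k + 1 with hk1
  set ε : ℝ := 1 / (4 * k1 * 2 ^ 38 * (a + 1)) with hε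
  have hk1pos : (0 : ℝ) < k1 := by rw [hk1]; positivity
  have hε0 : 0 < ε := by rw [hε]; positivity
  obtain ⟨γ, hγ, M, hM⟩ := shrink hψ hqK p d ε hε0
  refine ⟨γ / 2, by positivity, max (2 ^ 52 + 2) (max (M + 0) (max (2 ^ 42 * (a + 1)) ⌈2 / γ⌉₊)), ?_⟩
  intro n hn π hπ hlines
  have hnA : 2 ^ 52 + 2 ≤ n := le_trans (le_max_left _ _) hn
  have hnB : M ≤ n := le_trans (le_trans (le_max_left _ _) (le_max_right _ _)) hn
  have hnC : 2 ^ 42 * (a + 1) ≤ n :=
    le_trans (le_trans (le_max_left _ _) (le_trans (le_max_right _ _) (le_max_right _ _))) hn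
  have hnD : 2 / γ ≤ n := by
    have : ⌈2 / γ⌉₊ ≤ n :=
      le_trans (le_trans (le_max_right _ _) (le_trans (le_max_right _ _) (le_max_right _ _))) hn
    exact (Nat.le_ceil _).trans (by exact_mod_cast this)
  set n1 := n / (q - 1) with hn1
  have hq1 : 0 < q - 1 := by omega
  -- n ≤ 4 n1
  have hnn1 : n ≤ 2 * n1 + 1 := by
    have h1 : n < (n1 + 1) * (q - 1) := by
      have := Nat.lt_div_mul_add (a := n) hq1
      rw [← hn1] at this
      calc n < n1 * (q - 1) + (q - 1) := this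
        _ = (n1 + 1) * (q - 1) := by ring
    have h2 : (n1 + 1) * (q - 1) ≤ (n1 + 1) * 2 := Nat.mul_le_mul_left _ (by omega)
    omega
  have hn1big : 2 ^ 45 * 60 ≤ n1 := by
    have : 2 ^ 45 * 60 ≤ 2 ^ 51 := by norm_num
    omega
  obtain ⟨f, rhs, hFeq, hf⟩ := hF2 n (by rw [← hn1]; omega)
  rw [hFeq] at hπ
  have hV1 := one_le_par n1
  have hVn := par_small hn1big
  set D := (n1 / (2 ^ 37 * par n1) * par n1) / (a + 1) with hD
  have hDw : (a + 1) * D ≤ n1 / (2 ^ 37 * par n1) * par n1 := by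
    rw [hD, mul_comm]
    exact Nat.div_mul_le_self _ _
  set s : ℕ := k1 * n with hs
  -- ε s ≤ D
  have hεs : ε * (s : ℝ) ≤ D := by
    have h1 : (n1 : ℝ) / (2 ^ 38 * (a + 1)) ≤ D := by
      -- lower bound for D in the naturals
      have h2 : n1 ≤ 2 ^ 38 * ((a + 1) * D) := by
        have h3 : n1 / (2 ^ 37 * par n1) * par n1 < (a + 1) * D + (a + 1) := by
          have := Nat.lt_div_mul_add (a := n1 / (2 ^ 37 * par n1) * par n1) (b := a + 1) (by omega)
          rw [← hD] at this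
          calc n1 / (2 ^ 37 * par n1) * par n1 < D * (a + 1) + (a + 1) := this
            _ = (a + 1) * D + (a + 1) := by ring
        have h4 : n1 < n1 / (2 ^ 37 * par n1) * (2 ^ 37 * par n1) + 2 ^ 37 * par n1 :=
          Nat.lt_div_mul_add (by positivity)
        have h5 : n1 / (2 ^ 37 * par n1) * (2 ^ 37 * par n1) = 2 ^ 37 * (n1 / (2 ^ 37 * par n1) * par n1) := by ring
        rw [h5] at h4
        have h6 : 2 ^ 37 * (n1 / (2 ^ 37 * par n1) * par n1) ≤ 2 ^ 37 * ((a + 1) * D + (a + 1)) :=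
          Nat.mul_le_mul_left _ h3.le
        have h7 : 2 ^ 37 * ((a + 1) * D + (a + 1)) =
            2 ^ 37 * ((a + 1) * D) + 2 ^ 37 * (a + 1) := by ring
        -- 2^37 par ≤ n1 / 4 and 2^37 (a+1) ≤ n1/4
        have h8 : 4 * (2 ^ 37 * par n1) ≤ n1 := by
          refine le_trans ?_ hVn
          have : 4 * (2 ^ 37 * par n1) = 2 ^ 39 * par n1 := by ring
          rw [this]
          exact Nat.mul_le_mul_right _ (by norm_num)
        have h9 : 4 * (2 ^ 37 * (a + 1)) ≤ n1 := by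
          exact arith9 (by ring) (Nat.one_le_iff_ne_zero.2 (by positivity)) hnC hnn1
        have h11 : 2 ^ 38 * ((a + 1) * D) = 2 * (2 ^ 37 * ((a + 1) * D)) := by ring
        exact arith10 h4 h6 h7 h8 h9 h11
      rw [div_le_iff₀ (by positivity)]
      have h12 : (n1 : ℝ) ≤ 2 ^ 38 * ((a + 1) * D) := by exact_mod_cast h2
      linarith
    refine le_trans ?_ h1
    rw [hs, hε]
    push_cast
    rw [div_mul_eq_mul_div, div_le_div_iff₀ (by positivity) (by positivity)]
    have h13 : (n : ℝ) ≤ 4 * n1 := by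
      have : n ≤ 4 * n1 := by omega
      exact_mod_cast this
    have h14 : (0 : ℝ) < 2 ^ 38 * ((a : ℝ) + 1) := by positivity
    calc 1 * ((k1 : ℝ) * n) * (2 ^ 38 * ((a : ℝ) + 1))
        ≤ 1 * ((k1 : ℝ) * (4 * n1)) * (2 ^ 38 * ((a : ℝ) + 1)) := by
          apply mul_le_mul_of_nonneg_right _ h14.le
          apply mul_le_mul_of_nonneg_left _ one_pos.le
          exact mul_le_mul_of_nonneg_left h13 hk1pos.le
      _ = n1 * (4 * k1 * 2 ^ 38 * ((a : ℝ) + 1)) := by ring
  have hsM : M ≤ s := by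
    rw [hs, hk1]
    calc M ≤ n := hnB
      _ ≤ (k + 1) * n := Nat.le_mul_of_pos_left _ (by omega)
  have hcore := lines_core (p := p) (a := a) (D := D) (s := s) (γ := γ) hψ hqK hV1 hVn (le_pow_par n1) f rhs hf
    hDw hπ ?_
  · -- conclusion
    have hlen : Real.exp (γ * s) / 2 ≤ π.length := by
      have h1 : Real.exp (γ * s) * Real.exp (-(γ * s)) = 1 := by
        rw [← Real.exp_add]; simp
      have h2 : 0 < Real.exp (γ * s) := Real.exp_pos _
      calc Real.exp (γ * s) / 2 = Real.exp (γ * s) * (1 / 2) := by ring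
        _ ≤ Real.exp (γ * s) * (π.length * Real.exp (-(γ * s))) :=
            mul_le_mul_of_nonneg_left hcore h2.le
        _ = π.length * (Real.exp (γ * s) * Real.exp (-(γ * s))) := by ring
        _ = π.length := by rw [h1, mul_one]
    refine le_trans ?_ hlen
    have hn0 : (0 : ℝ) ≤ n := Nat.cast_nonneg n
    have hsn : (n : ℝ) ≤ s := by
      rw [hs, hk1]
      push_cast
      have : (0 : ℝ) ≤ k * n := by positivity
      nlinarith
    have h3 : (2 : ℝ) ^ (γ / 2 * (n : ℝ)) ≤ Real.exp (γ / 2 * n) := by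
      rw [Real.rpow_def_of_pos (by norm_num)]
      apply Real.exp_le_exp.2
      have h4 : Real.log 2 ≤ 1 := by
        have := Real.log_two_lt_d9; linarith
      have h5 : 0 ≤ γ / 2 * (n : ℝ) := by positivity
      nlinarith
    refine h3.trans ?_
    rw [le_div_iff₀ (by norm_num)]
    have h6 : (2 : ℝ) ≤ Real.exp 1 := by
      have := Real.add_one_le_exp (1 : ℝ); linarith
    calc Real.exp (γ / 2 * n) * 2 ≤ Real.exp (γ / 2 * n) * Real.exp 1 :=
          mul_le_mul_of_nonneg_left h6 (Real.exp_pos _).le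
      _ = Real.exp (γ / 2 * n + 1) := by rw [Real.exp_add]
      _ ≤ Real.exp (γ * s) := by
          apply Real.exp_le_exp.2
          have h7 : 2 ≤ γ * n := by
            rw [div_le_iff₀ hγ] at hnD
            linarith
          have h8 : γ * n ≤ γ * s := mul_le_mul_of_nonneg_left hsn hγ.le
          linarith
  · intro A hA
    obtain ⟨hAd, hAs⟩ := hlines A hA
    have hAs' : A.size ≤ s := by
      refine hAs.trans ?_
      rw [hs, hk1]
      exact Nat.mul_le_mul_right _ (by omega)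
    exact hM n1 A hAd s hAs' hsM (nog q n1) D hεs

end Pool.Agent.Helper21.Lin
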