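import Mathlib

/-!
Bipartite expanders of logarithmic left degree: almost all neighbours of small sets are
different.
-/

namespace Pool.Agent.Helper21.Lin

open scoped BigOperators Classical

variable {m W n : ℕ}

/-- Edges at a set of rows. -/
noncomputable def edges (W : ℕ) (S : Finset (Fin m)) : Finset (Fin m × Fin W) :=
  S ×ˢ (Finset.univ : Finset (Fin W))

/-- Neighbourhood of a set of rows. -/
noncomputable def nb (f : Fin m × Fin W → Fin n) (S : Finset (Fin m)) : Finset (Fin n) :=
  (edges W S).image f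

theorem card_edges (S : Finset (Fin m)) : (edges W S).card = S.card * W := by
  unfold edges
  rw [Finset.card_product, Finset.card_univ, Fintype.card_fin]

/-- Functions that repeat, on `Q`, values taken on `E \ Q`. -/
theorem card_repeat (E Q : Finset (Fin m × Fin W)) (hQ : Q ⊆ E) :
    (Finset.univ.filter (fun f : Fin m × Fin W → Fin n =>
      ∀ e ∈ Q, ∃ e' ∈ E \ Q, f e = f e')).card ≤ n ^ (m * W - Q.card) * E.card ^ Q.card := by
  set Cs : Finset (Fin m × Fin W → Fin m × Fin W) :=
    Fintype.piFinset (fun e => if e ∈ Q then E \ Q else {e}) with hCs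
  have hsub : (Finset.univ.filter (fun f : Fin m × Fin W → Fin n =>
      ∀ e ∈ Q, ∃ e' ∈ E \ Q, f e = f e')) ⊆
      Cs.biUnion (fun c => Finset.univ.filter (fun f : Fin m × Fin W → Fin n =>
        ∀ e ∈ Q, f e = f (c e))) := by
    intro f hf
    have hf' := (Finset.mem_filter.1 hf).2
    rw [Finset.mem_biUnion]
    choose! c hc1 hc2 using hf'
    refine ⟨fun e => if e ∈ Q then c e else e, ?_, ?_⟩
    · rw [hCs, Fintype.mem_piFinset]
      intro e
      by_cases he : e ∈ Q
      · simp only [if_pos he]; exact hc1 e he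
      · simp only [if_neg he]; exact Finset.mem_singleton_self e
    · rw [Finset.mem_filter]
      refine ⟨Finset.mem_univ _, ?_⟩
      intro e he
      simp only [if_pos he]
      exact hc2 e he
  refine (Finset.card_le_card hsub).trans (Finset.card_biUnion_le.trans ?_)
  have h1 : ∀ c ∈ Cs, (Finset.univ.filter (fun f : Fin m × Fin W → Fin n =>
      ∀ e ∈ Q, f e = f (c e))).card ≤ n ^ (m * W - Q.card) := by
    intro c hc
    have hc' : ∀ e ∈ Q, c e ∉ Q := by
      intro e he
      rw [hCs, Fintype.mem_piFinset] at hc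
      have := hc e
      rw [if_pos he] at this
      exact (Finset.mem_sdiff.1 this).2
    have h2 : Fintype.card ({e : Fin m × Fin W // e ∉ Q} → Fin n) = n ^ (m * W - Q.card) := by
      rw [Fintype.card_fun, Fintype.card_fin]
      congr 1
      rw [Fintype.card_subtype_compl]
      simp
    rw [← h2, ← Finset.card_univ]
    apply Finset.card_le_card_of_injOn (fun f => fun e => f e.1)
    · intro f _; exact Finset.mem_coe.2 (Finset.mem_univ _)
    · intro f hf f' hf' hff
      have hf1 := (Finset.mem_filter.1 (Finset.mem_coe.1 hf)).2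
      have hf2 := (Finset.mem_filter.1 (Finset.mem_coe.1 hf')).2
      have hff' : ∀ e, e ∉ Q → f e = f' e := by
        intro e he
        exact congrFun hff ⟨e, he⟩
      funext e
      by_cases he : e ∈ Q
      · rw [hf1 e he, hf2 e he]
        exact hff' _ (hc' e he)
      · exact hff' e he
  refine (Finset.sum_le_sum h1).trans ?_
  rw [Finset.sum_const, smul_eq_mul, mul_comm]
  apply Nat.mul_le_mul_left
  rw [hCs, Fintype.card_piFinset]
  have h3 : ∀ e : Fin m × Fin W, (if e ∈ Q then E \ Q else {e}).card =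
      if e ∈ Q then (E \ Q).card else 1 := by
    intro e; split_ifs <;> simp
  simp only [h3]
  rw [Finset.prod_ite]
  simp only [Finset.prod_const, one_pow, mul_one]
  have h4 : (Finset.univ.filter (fun e : Fin m × Fin W => e ∈ Q)).card = Q.card := by
    congr 1; ext; simp
  rw [h4]
  exact Nat.pow_le_pow_left (Finset.card_le_card Finset.sdiff_subset) _

/-- A set with a small neighbourhood has many repetitions. -/
theorem exists_repeat (f : Fin m × Fin W → Fin n) (S : Finset (Fin m)) :
    ∃ Q ⊆ edges W S, Q.card = S.card * W - (nb f S).card ∧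
      ∀ e ∈ Q, ∃ e' ∈ edges W S \ Q, f e = f e' := by
  have h : ∀ i ∈ nb f S, ∃ e ∈ edges W S, f e = i := by
    intro i hi
    unfold nb at hi
    rw [Finset.mem_image] at hi
    exact hi
  by_cases hne : Nonempty (Fin m × Fin W)
  · choose! rep hrep1 hrep2 using h
    set Rp := (nb f S).image rep with hRp
    have hRpE : Rp ⊆ edges W S := by
      intro e he
      rw [hRp, Finset.mem_image] at he
      obtain ⟨i, hi, rfl⟩ := he
      exact hrep1 i hi
    have hcard : Rp.card = (nb f S).card := by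
      rw [hRp]
      apply Finset.card_image_of_injOn
      intro i hi i' hi' hii
      have := congrArg f hii
      rwa [hrep2 i hi, hrep2 i' hi'] at this
    refine ⟨edges W S \ Rp, Finset.sdiff_subset, ?_, ?_⟩
    · rw [Finset.card_sdiff_of_subset hRpE, hcard, card_edges]
    · intro e he
      have he' := (Finset.mem_sdiff.1 he).1
      have hi : f e ∈ nb f S := Finset.mem_image_of_mem f he'
      refine ⟨rep (f e), ?_, (hrep2 _ hi).symm⟩
      rw [Finset.mem_sdiff]
      refine ⟨hrep1 _ hi, ?_⟩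
      rw [Finset.mem_sdiff, not_and, not_not]
      intro _
      exact Finset.mem_image_of_mem rep hi
  · rw [not_nonempty_iff] at hne
    refine ⟨∅, Finset.empty_subset _, ?_, by simp⟩
    have h1 : edges W S = ∅ := Finset.eq_empty_of_isEmpty _
    have h2 := card_edges (W := W) S
    rw [h1] at h2
    simp at h2
    rw [Finset.card_empty]
    rcases h2 with h2 | h2
    · subst h2; simp
    · subst h2; simp

/-- Existence of expanders of logarithmic degree. -/
theorem exists_logExp {V : ℕ} (hn : 0 < n) (hm : 4 * m ≤ 2 ^ (16 * V)) :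
    ∃ f : Fin m × Fin (16 * V) → Fin n, ∀ S : Finset (Fin m), S.Nonempty →
      S.card * (16 * V) * 2 ^ 32 ≤ n → S.card * (15 * V) ≤ (nb f S).card := by
  by_contra hcon
  push Not at hcon
  -- all functions are bad
  set 𝒮 : Finset (Finset (Fin m)) := Finset.univ.filter (fun S =>
    S.Nonempty ∧ S.card * (16 * V) * 2 ^ 32 ≤ n) with h𝒮
  have hsub : (Finset.univ : Finset (Fin m × Fin (16 * V) → Fin n)) ⊆
      𝒮.biUnion (fun S => ((edges (16 * V) S).powerset.filter
        (fun Q => S.card * V < Q.card)).biUnion (fun Q =>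
          Finset.univ.filter (fun f : Fin m × Fin (16 * V) → Fin n =>
            ∀ e ∈ Q, ∃ e' ∈ edges (16 * V) S \ Q, f e = f e'))) := by
    intro f _
    obtain ⟨S, hS1, hS2, hS3⟩ := hcon f
    obtain ⟨Q, hQ1, hQ2, hQ3⟩ := exists_repeat f S
    rw [Finset.mem_biUnion]
    refine ⟨S, ?_, ?_⟩
    · rw [h𝒮, Finset.mem_filter]; exact ⟨Finset.mem_univ _, hS1, hS2⟩
    · rw [Finset.mem_biUnion]
      refine ⟨Q, ?_, ?_⟩
      · rw [Finset.mem_filter, Finset.mem_powerset]
        refine ⟨hQ1, ?_⟩
        rw [hQ2]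
        have : S.card * (16 * V) = S.card * (15 * V) + S.card * V := by ring
        omega
      · rw [Finset.mem_filter]; exact ⟨Finset.mem_univ _, hQ3⟩
  have hcard := Finset.card_le_card hsub
  rw [Finset.card_univ, Fintype.card_fun, Fintype.card_prod, Fintype.card_fin, Fintype.card_fin,
    Fintype.card_fin] at hcard
  -- bound in the reals
  set N : ℝ := (n : ℝ) ^ (m * (16 * V)) with hN
  have hnR : (0 : ℝ) < n := by exact_mod_cast hn
  have hN0 : 0 < N := by rw [hN]; positivity
  have hterm : ∀ S ∈ 𝒮, ∀ Q ∈ (edges (16 * V) S).powerset.filter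
      (fun Q => S.card * V < Q.card),
      ((Finset.univ.filter (fun f : Fin m × Fin (16 * V) → Fin n =>
            ∀ e ∈ Q, ∃ e' ∈ edges (16 * V) S \ Q, f e = f e')).card : ℝ) ≤
        N * ((1 / 2 : ℝ) ^ 32) ^ (S.card * V) := by
    intro S hS Q hQ
    rw [h𝒮, Finset.mem_filter] at hS
    rw [Finset.mem_filter, Finset.mem_powerset] at hQ
    obtain ⟨hQ1, hQ2⟩ := hQ
    have h1 := card_repeat (n := n) (edges (16 * V) S) Q hQ1
    rw [card_edges] at h1
    have hQm : Q.card ≤ m * (16 * V) := by
      have := Finset.card_le_univ Q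
      rw [Fintype.card_prod, Fintype.card_fin, Fintype.card_fin] at this
      exact this
    have h2 : (((S.card * (16 * V) : ℕ) : ℝ)) ≤ n * (1 / 2 : ℝ) ^ 32 := by
      have h3 : (((S.card * (16 * V) * 2 ^ 32 : ℕ)) : ℝ) ≤ n := by exact_mod_cast hS.2.2
      push_cast at h3 ⊢
      rw [one_div, inv_pow, ← div_eq_mul_inv, le_div_iff₀ (by positivity)]
      linarith
    calc ((Finset.univ.filter (fun f : Fin m × Fin (16 * V) → Fin n =>
            ∀ e ∈ Q, ∃ e' ∈ edges (16 * V) S \ Q, f e = f e')).card : ℝ)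
        ≤ ((n ^ (m * (16 * V) - Q.card) * (S.card * (16 * V)) ^ Q.card : ℕ) : ℝ) := by
          exact_mod_cast h1
      _ = (n : ℝ) ^ (m * (16 * V) - Q.card) * ((S.card * (16 * V) : ℕ) : ℝ) ^ Q.card := by
          push_cast; ring
      _ ≤ (n : ℝ) ^ (m * (16 * V) - Q.card) * (n * (1 / 2 : ℝ) ^ 32) ^ Q.card := by
          apply mul_le_mul_of_nonneg_left _ (by positivity)
          exact pow_le_pow_left₀ (Nat.cast_nonneg _) h2 _
      _ = N * ((1 / 2 : ℝ) ^ 32) ^ Q.card := by
          rw [mul_pow, ← mul_assoc, ← pow_add, Nat.sub_add_cancel hQm]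
      _ ≤ N * ((1 / 2 : ℝ) ^ 32) ^ (S.card * V) := by
          apply mul_le_mul_of_nonneg_left _ hN0.le
          apply pow_le_pow_of_le_one (by positivity)
          · norm_num
          · exact hQ2.le
  have hS : ∀ S ∈ 𝒮, (((((edges (16 * V) S).powerset.filter
        (fun Q => S.card * V < Q.card)).biUnion (fun Q =>
          Finset.univ.filter (fun f : Fin m × Fin (16 * V) → Fin n =>
            ∀ e ∈ Q, ∃ e' ∈ edges (16 * V) S \ Q, f e = f e'))).card : ℕ) : ℝ) ≤
        N * ((1 / 2 : ℝ) ^ (16 * V)) ^ S.card := by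
    intro S hS
    have h1 : (((((edges (16 * V) S).powerset.filter
        (fun Q => S.card * V < Q.card)).biUnion (fun Q =>
          Finset.univ.filter (fun f : Fin m × Fin (16 * V) → Fin n =>
            ∀ e ∈ Q, ∃ e' ∈ edges (16 * V) S \ Q, f e = f e'))).card : ℕ) : ℝ) ≤
        ∑ Q ∈ (edges (16 * V) S).powerset.filter (fun Q => S.card * V < Q.card),
          ((Finset.univ.filter (fun f : Fin m × Fin (16 * V) → Fin n =>
            ∀ e ∈ Q, ∃ e' ∈ edges (16 * V) S \ Q, f e = f e')).card : ℝ) := by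
      exact_mod_cast Finset.card_biUnion_le
    refine h1.trans ((Finset.sum_le_sum (hterm S hS)).trans ?_)
    rw [Finset.sum_const, nsmul_eq_mul]
    have h2 : ((((edges (16 * V) S).powerset.filter (fun Q => S.card * V < Q.card)).card : ℕ) : ℝ)
        ≤ (2 : ℝ) ^ (S.card * (16 * V)) := by
      have := (Finset.card_filter_le (edges (16 * V) S).powerset (fun Q => S.card * V < Q.card))
      rw [Finset.card_powerset, card_edges] at this
      exact_mod_cast this
    calc ((((edges (16 * V) S).powerset.filter (fun Q => S.card * V < Q.card)).card : ℕ) : ℝ) *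
          (N * ((1 / 2 : ℝ) ^ 32) ^ (S.card * V))
        ≤ (2 : ℝ) ^ (S.card * (16 * V)) * (N * ((1 / 2 : ℝ) ^ 32) ^ (S.card * V)) :=
          mul_le_mul_of_nonneg_right h2 (by positivity)
      _ = N * ((1 / 2 : ℝ) ^ (16 * V)) ^ S.card := by
          have e1 : ((1 / 2 : ℝ) ^ 32) ^ (S.card * V) =
              (1 / 2 : ℝ) ^ (S.card * (16 * V)) * (1 / 2 : ℝ) ^ (S.card * (16 * V)) := by
            rw [← pow_mul, ← pow_add]; congr 1; ring
          have e2 : (2 : ℝ) ^ (S.card * (16 * V)) * (1 / 2 : ℝ) ^ (S.card * (16 * V)) = 1 := by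
            rw [← mul_pow]; norm_num
          rw [e1, ← pow_mul]
          have e3 : 16 * V * S.card = S.card * (16 * V) := by ring
          rw [e3]
          calc (2 : ℝ) ^ (S.card * (16 * V)) * (N * ((1 / 2 : ℝ) ^ (S.card * (16 * V)) *
              (1 / 2 : ℝ) ^ (S.card * (16 * V))))
              = ((2 : ℝ) ^ (S.card * (16 * V)) * (1 / 2 : ℝ) ^ (S.card * (16 * V))) *
                (N * (1 / 2 : ℝ) ^ (S.card * (16 * V))) := by ring
            _ = N * (1 / 2 : ℝ) ^ (S.card * (16 * V)) := by rw [e2, one_mul]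
  set x : ℝ := (1 / 2 : ℝ) ^ (16 * V) with hx
  have hx0 : 0 < x := by rw [hx]; positivity
  have hmx : 4 * (m * x) ≤ 1 := by
    have h1 : (4 * m : ℝ) ≤ 2 ^ (16 * V) := by exact_mod_cast hm
    have h2 : x * 2 ^ (16 * V) = 1 := by rw [hx, ← mul_pow]; norm_num
    calc 4 * (m * x) = x * (4 * m) := by ring
      _ ≤ x * 2 ^ (16 * V) := mul_le_mul_of_nonneg_left h1 hx0.le
      _ = 1 := h2
  have htotal : ((n ^ (m * (16 * V)) : ℕ) : ℝ) ≤ ∑ S ∈ 𝒮, N * x ^ S.card := by
    have h1 : ((n ^ (m * (16 * V)) : ℕ) : ℝ) ≤ ∑ S ∈ 𝒮, (((((edges (16 * V) S).powerset.filter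
        (fun Q => S.card * V < Q.card)).biUnion (fun Q =>
          Finset.univ.filter (fun f : Fin m × Fin (16 * V) → Fin n =>
            ∀ e ∈ Q, ∃ e' ∈ edges (16 * V) S \ Q, f e = f e'))).card : ℕ) : ℝ) := by
      exact_mod_cast hcard.trans Finset.card_biUnion_le
    exact h1.trans (Finset.sum_le_sum hS)
  have hsum : ∑ S ∈ 𝒮, N * x ^ S.card ≤ N * ((1 + x) ^ m - 1) := by
    rw [← Finset.mul_sum]
    apply mul_le_mul_of_nonneg_left _ hN0.le
    have h1 : ∑ S ∈ (Finset.univ : Finset (Fin m)).powerset, x ^ S.card = (1 + x) ^ m := by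
      have := Finset.sum_pow_mul_eq_add_pow x (1 : ℝ) (Finset.univ : Finset (Fin m))
      simp only [one_pow, mul_one, Finset.card_univ, Fintype.card_fin] at this
      rw [this, add_comm]
    have h2 : ∑ S ∈ 𝒮, x ^ S.card + 1 ≤ ∑ S ∈ (Finset.univ : Finset (Fin m)).powerset,
        x ^ S.card := by
      have h3 : (∅ : Finset (Fin m)) ∉ 𝒮 := by
        rw [h𝒮, Finset.mem_filter]
        simp
      have h4 : ∑ S ∈ insert ∅ 𝒮, x ^ S.card = 1 + ∑ S ∈ 𝒮, x ^ S.card := by
        rw [Finset.sum_insert h3]; simp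
      have h5 : ∑ S ∈ insert ∅ 𝒮, x ^ S.card ≤
          ∑ S ∈ (Finset.univ : Finset (Fin m)).powerset, x ^ S.card := by
        apply Finset.sum_le_sum_of_subset_of_nonneg
        · intro S _; exact Finset.mem_powerset.2 (Finset.subset_univ S)
        · intro S _ _; positivity
      linarith
    linarith
  have hexp : (1 + x) ^ m ≤ Real.exp (1 / 4) := by
    have h1 : 1 + x ≤ Real.exp x := by have := Real.add_one_le_exp x; linarith
    calc (1 + x) ^ m ≤ (Real.exp x) ^ m := pow_le_pow_left₀ (by positivity) h1 m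
      _ = Real.exp (m * x) := by rw [← Real.exp_nat_mul]
      _ ≤ Real.exp (1 / 4) := Real.exp_le_exp.2 (by linarith)
  have hexp2 : Real.exp (1 / 4) < 2 := by
    have h1 : Real.exp (1 / 4) ≤ Real.exp (1 / 2) := Real.exp_le_exp.2 (by norm_num)
    have h2 : Real.exp (1 / 2) * Real.exp (1 / 2) = Real.exp 1 := by
      rw [← Real.exp_add]; norm_num
    have h3 := Real.exp_one_lt_d9
    have h4 := Real.exp_pos (1 / 2)
    nlinarith
  have hfinal : N ≤ N * ((1 + x) ^ m - 1) := by
    have : ((n ^ (m * (16 * V)) : ℕ) : ℝ) = N := by rw [hN]; push_cast; rfl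
    rw [this] at htotal
    exact htotal.trans hsum
  nlinarith

end Pool.Agent.Helper21.Lin
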