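import Pool.Agent.Helper21.Lin.Finner

/-!
Probabilities in finite product spaces.
-/

namespace Pool.Agent.Helper21.Lin

open scoped BigOperators Classical

variable {α : Type} [Fintype α] [Nonempty α] {n : ℕ}

/-- Probability of an event. -/
noncomputable def prob (S : (Fin n → α) → Prop) : ℝ := avg (fun ω => if S ω then (1 : ℝ) else 0)

theorem prob_mono {S T : (Fin n → α) → Prop} (h : ∀ ω, S ω → T ω) : prob S ≤ prob T := by
  apply avg_mono
  intro ω
  by_cases hS : S ω
  · rw [if_pos hS, if_pos (h ω hS)]
  · rw [if_neg hS]; split_ifs <;> norm_num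

theorem prob_nonneg (S : (Fin n → α) → Prop) : 0 ≤ prob S := by
  apply avg_nonneg
  intro ω; split_ifs <;> norm_num

theorem prob_true : prob (fun _ : Fin n → α => True) = 1 := by
  unfold prob
  simp [avg_const]

theorem prob_false : prob (fun _ : Fin n → α => False) = 0 := by
  unfold prob
  simp [avg_const]

theorem prob_or_le (S T : (Fin n → α) → Prop) : prob (fun ω => S ω ∨ T ω) ≤ prob S + prob T := by
  unfold prob
  rw [← avg_add]
  apply avg_mono
  intro ω
  by_cases hS : S ω <;> by_cases hT : T ω <;> simp [hS, hT]

theorem prob_exists_le {κ : Type*} (s : Finset κ) (S : κ → (Fin n → α) → Prop) :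
    prob (fun ω => ∃ j ∈ s, S j ω) ≤ ∑ j ∈ s, prob (S j) := by
  unfold prob
  rw [← avg_sum]
  apply avg_mono
  intro ω
  by_cases h : ∃ j ∈ s, S j ω
  · rw [if_pos h]
    obtain ⟨j, hj, hS⟩ := h
    calc (1 : ℝ) = (if S j ω then (1 : ℝ) else 0) := by rw [if_pos hS]
      _ ≤ _ := Finset.single_le_sum (f := fun j => if S j ω then (1 : ℝ) else 0)
          (fun i _ => by split_ifs <;> norm_num) hj
  · rw [if_neg h]
    apply Finset.sum_nonneg
    intro i _; split_ifs <;> norm_num

theorem prob_not (S : (Fin n → α) → Prop) : prob (fun ω => ¬ S ω) = 1 - prob S := by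
  have h : prob S + prob (fun ω => ¬ S ω) = 1 := by
    unfold prob
    rw [← avg_add]
    refine Eq.trans ?_ (avg_const (α := α) (n := n) (1 : ℝ))
    congr 1
    funext ω
    by_cases hS : S ω <;> simp [hS]
  linarith

theorem exists_of_prob_lt {S : (Fin n → α) → Prop} (h : prob S < 1) : ∃ ω, ¬ S ω := by
  by_contra hcon
  push Not at hcon
  have : prob S = 1 := by
    rw [← prob_true (α := α) (n := n)]
    apply le_antisymm
    · exact prob_mono (fun _ _ => trivial)
    · exact prob_mono (fun ω _ => hcon ω)
  linarith

/-- Markov's inequality in exponential form. -/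
theorem prob_markov (X : (Fin n → α) → ℝ) (l c B : ℝ) (hl : 0 ≤ l)
    (h : avg (fun ω => Real.exp (l * X ω)) ≤ B) :
    prob (fun ω => c < X ω) ≤ Real.exp (-(l * c)) * B := by
  unfold prob
  have h1 : avg (fun ω => if c < X ω then (1 : ℝ) else 0) ≤
      avg (fun ω => Real.exp (-(l * c)) * Real.exp (l * X ω)) := by
    apply avg_mono
    intro ω
    split_ifs with h
    · rw [← Real.exp_add]
      apply Real.one_le_exp
      nlinarith
    · positivity
  rw [avg_mul_left] at h1
  exact h1.trans (mul_le_mul_of_nonneg_left h (Real.exp_pos _).le)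

theorem prob_eq_card (S : (Fin n → α) → Prop) :
    prob S = ((Finset.univ.filter S).card : ℝ) / (Fintype.card α : ℝ) ^ n := by
  unfold prob avg
  congr 1
  rw [Finset.card_filter]
  push_cast
  rfl

/-- Probability that prescribed coordinates take prescribed values. -/
theorem prob_cylinder (A : Finset (Fin n)) (c : Fin n → α) :
    prob (fun ω => ∀ i ∈ A, ω i = c i) = ((Fintype.card α : ℝ)⁻¹) ^ A.card := by
  have hc := card_pos' (α := α)
  rw [prob_eq_card]
  have h1 : ∀ D : DecidablePred (fun ω : Fin n → α => ∀ i ∈ A, ω i = c i),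
      (@Finset.filter _ (fun ω : Fin n → α => ∀ i ∈ A, ω i = c i) D Finset.univ).card =
      ((Fintype.piFinset (fun i => if i ∈ A then ({c i} : Finset α) else Finset.univ)).card) := by
    intro D
    congr 1
    ext ω
    simp only [Finset.mem_filter, Finset.mem_univ, true_and, Fintype.mem_piFinset]
    constructor
    · intro h i
      by_cases hi : i ∈ A
      · rw [if_pos hi, Finset.mem_singleton]; exact h i hi
      · rw [if_neg hi]; exact Finset.mem_univ _
    · intro h i hi
      have := h i
      rw [if_pos hi, Finset.mem_singleton] at this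
      exact this
  rw [h1 _, Fintype.card_piFinset]
  have h2 : ∀ i : Fin n, (if i ∈ A then ({c i} : Finset α) else Finset.univ).card =
      if i ∈ A then 1 else Fintype.card α := by
    intro i
    split_ifs
    · simp
    · simp
  simp only [h2]
  rw [Finset.prod_ite]
  simp only [Finset.prod_const, one_pow, one_mul]
  have h3 : (Finset.univ.filter (fun i : Fin n => ¬ i ∈ A)).card + A.card = n := by
    have := Finset.card_filter_add_card_filter_not (s := (Finset.univ : Finset (Fin n)))
      (fun i => i ∈ A)
    rw [Finset.card_univ, Fintype.card_fin] at this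
    have h4 : Finset.univ.filter (fun i : Fin n => i ∈ A) = A := by ext; simp
    rw [h4] at this
    omega
  have h5 : (Fintype.card α : ℝ) ^ n = (Fintype.card α : ℝ) ^
      (Finset.univ.filter (fun i : Fin n => ¬ i ∈ A)).card * (Fintype.card α : ℝ) ^ A.card := by
    rw [← pow_add, h3]
  rw [h5]
  push_cast
  rw [inv_pow]
  field_simp

end Pool.Agent.Helper21.Lin
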