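import Pool.Agent.Helper21.Lin.Prob
import Pool.Agent.Helper21.AC0p.System

/-!
Formulas under random restrictions: locality and degree.
-/

namespace Pool.Agent.Helper21.Lin

open scoped BigOperators Classical
open Pool.Agent.Helper21.AC0p

section Occ

variable (q : ℕ)

/-- Number of occurrences in a formula of variables of column `i`. -/
def occ (i : ℕ) : Fm → ℕ
  | .var k => if k / (q - 1) = i then 1 else 0
  | .neg A => occ i A
  | .or _ f => ∑ j, occ i (f j)
  | .mod _ f => ∑ j, occ i (f j)

theorem occ_sum_le (S : Finset ℕ) (T : Fm) : ∑ i ∈ S, occ q i T ≤ T.size := by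
  induction T with
  | var k =>
    simp only [occ, Fm.size]
    rw [Finset.sum_ite_eq]
    split_ifs <;> simp
  | neg A ih => simp only [occ, Fm.size]; omega
  | or k f ih =>
    simp only [occ, Fm.size]
    rw [Finset.sum_comm]
    have := Finset.sum_le_sum (fun j (_ : j ∈ Finset.univ) => ih j)
    omega
  | mod k f ih =>
    simp only [occ, Fm.size]
    rw [Finset.sum_comm]
    have := Finset.sum_le_sum (fun j (_ : j ∈ Finset.univ) => ih j)
    omega

theorem occ_sum_fin_le {n : ℕ} (T : Fm) : ∑ i : Fin n, occ q i.val T ≤ T.size := by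
  have := occ_sum_le q (Finset.range n) T
  rwa [Finset.sum_range] at this

theorem eval_congr_occ {n : ℕ} (p : ℕ) {y y' : Fin n → ZMod q} (T : Fm)
    (h : ∀ i : Fin n, occ q i.val T ≠ 0 → y i = y' i) :
    T.eval p (enc q y) = T.eval p (enc q y') := by
  induction T with
  | var k =>
    simp only [Fm.eval, enc]
    split_ifs with hk
    · rw [h ⟨k / (q - 1), hk⟩ (by simp [occ])]
    · rfl
  | neg A ih => simp only [Fm.eval]; rw [ih h]
  | or k f ih =>
    simp only [Fm.eval]
    have : ∀ j, (f j).eval p (enc q y) = (f j).eval p (enc q y') := by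
      intro j
      apply ih
      intro i hi
      apply h
      simp only [occ]
      intro h0
      rw [Finset.sum_eq_zero_iff] at h0
      exact hi (h0 j (Finset.mem_univ j))
    simp only [this]
  | mod k f ih =>
    simp only [Fm.eval]
    have : ∀ j, (f j).eval p (enc q y) = (f j).eval p (enc q y') := by
      intro j
      apply ih
      intro i hi
      apply h
      simp only [occ]
      intro h0
      rw [Finset.sum_eq_zero_iff] at h0
      exact hi (h0 j (Finset.mem_univ j))
    simp only [this]

end Occ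

section Merge

variable {q n : ℕ}

/-- The restricted point: fixed values `g`, then the random restriction `ω` (a column is alive
when its first component is `true`, otherwise it gets the second component). -/
def mrg (g : Fin n → Option (ZMod q)) (ω : Fin n → Bool × ZMod q) (x : Fin n → ZMod q)
    (i : Fin n) : ZMod q :=
  match g i with
  | some a => a
  | none => if (ω i).1 then x i else (ω i).2

/-- The restricted formula as a function. -/
noncomputable def rst (K : Type) [Field K] (p : ℕ) (g : Fin n → Option (ZMod q))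
    (ω : Fin n → Bool × ZMod q) (T : Fm) : (Fin n → ZMod q) → K :=
  ind K (fun x => T.eval p (enc q (mrg g ω x)))

theorem rst_loc {K : Type} [Field K] {p : ℕ} {g : Fin n → Option (ZMod q)}
    {ω ω' : Fin n → Bool × ZMod q} {T : Fm}
    (h : ∀ i, g i = none → occ q i.val T ≠ 0 → ω i = ω' i) :
    rst K p g ω T = rst K p g ω' T := by
  funext x
  unfold rst ind
  beta_reduce
  rw [eval_congr_occ q p T (y := mrg g ω x) (y' := mrg g ω' x)]
  intro i hi
  unfold mrg
  rcases hg : g i with _ | a
  · simp only [h i hg hi]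
  · rfl

/-- Extension of the fixed part. -/
def ext (H : Finset (Fin n)) (h : Fin n → ZMod q) (g : Fin n → Option (ZMod q)) (i : Fin n) :
    Option (ZMod q) := if i ∈ H then some (h i) else g i

end Merge

section Deg

variable {q n : ℕ} [hq : Fact q.Prime] {K : Type} [Field K]
variable {ψ : AddChar (ZMod q) K} (hψ : ψ.IsPrimitive) (hqK : (q : K) ≠ 0)

include hψ hqK

/-- Functions of few coordinates have low degree. -/
theorem dep_mem (A : Finset (Fin n)) : ∀ (f : (Fin n → ZMod q) → K),
    (∀ x x', (∀ i ∈ A, x i = x' i) → f x = f x') → f ∈ (chrFilt ψ n).LD A.card := by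
  induction A using Finset.induction_on with
  | empty =>
    intro f hf
    have : f = fun _ => f 0 := by
      funext x; exact hf x 0 (by simp)
    rw [this]
    exact (chrFilt ψ n).const_mem _ _
  | insert a A ha ih =>
    intro f hf
    have h : f = ∑ b : ZMod q, (fun x => if x a = b then (1 : K) else 0) *
        (fun x => f (Function.update x a b)) := by
      funext x
      simp only [Finset.sum_apply, Pi.mul_apply]
      rw [Finset.sum_eq_single (x a)]
      · rw [if_pos rfl, one_mul, Function.update_eq_self]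
      · intro b _ hb
        rw [if_neg (Ne.symm hb), zero_mul]
      · intro h; exact absurd (Finset.mem_univ _) h
    rw [h, Finset.card_insert_of_notMem ha, add_comm]
    refine Submodule.sum_mem _ (fun b _ => (chrFilt ψ n).mul_mem ?_ ?_)
    · exact coord_mem ψ hψ hqK a (fun s => if s = b then (1 : K) else 0)
    · apply ih
      intro x x' hx
      apply hf
      intro i hi
      by_cases hia : i = a
      · subst hia; simp
      · rw [Function.update_of_ne hia, Function.update_of_ne hia]
        exact hx i ((Finset.mem_insert.1 hi).resolve_left hia)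

theorem rst_mem_size (p : ℕ) (g : Fin n → Option (ZMod q)) (ω : Fin n → Bool × ZMod q)
    (T : Fm) : rst K p g ω T ∈ (chrFilt ψ n).LD T.size := by
  set A : Finset (Fin n) := Finset.univ.filter (fun i => occ q i.val T ≠ 0) with hA
  have h1 : rst K p g ω T ∈ (chrFilt ψ n).LD A.card := by
    apply dep_mem hψ hqK
    intro x x' hx
    unfold rst ind
    beta_reduce
    rw [eval_congr_occ q p T (y := mrg g ω x) (y' := mrg g ω x')]
    intro i hi
    unfold mrg
    have := hx i (by rw [hA]; simp [hi])
    rw [this]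
  refine (chrFilt ψ n).mono ?_ h1
  refine le_trans ?_ (occ_sum_fin_le (n := n) q T)
  rw [Finset.card_eq_sum_ones, hA]
  calc ∑ i ∈ Finset.univ.filter (fun i : Fin n => occ q i.val T ≠ 0), 1
      ≤ ∑ i ∈ Finset.univ.filter (fun i : Fin n => occ q i.val T ≠ 0), occ q i.val T := by
        apply Finset.sum_le_sum
        intro i hi
        have := (Finset.mem_filter.1 hi).2
        omega
    _ ≤ ∑ i : Fin n, occ q i.val T :=
        Finset.sum_le_sum_of_subset (Finset.filter_subset _ _)

omit hψ hqK hq in
theorem rst_neg (p : ℕ) (g : Fin n → Option (ZMod q)) (ω : Fin n → Bool × ZMod q) (A : Fm) :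
    rst K p g ω (.neg A) = 1 - rst K p g ω A := by
  unfold rst
  rw [← ind_not]
  rfl

omit hψ hqK hq in
theorem rst_or (p : ℕ) (g : Fin n → Option (ZMod q)) (ω : Fin n → Bool × ZMod q) {k : ℕ}
    (f : Fin k → Fm) : rst K p g ω (.or k f) = 1 - ∏ j, (1 - rst K p g ω (f j)) := by
  funext x
  simp only [rst, ind, Fm.eval, Pi.sub_apply, Pi.one_apply, Finset.prod_apply, decide_eq_true_eq]
  by_cases hx : ∃ j, (f j).eval p (enc q (mrg g ω x)) = true
  · rw [if_pos hx]
    obtain ⟨j, hj⟩ := hx
    rw [Finset.prod_eq_zero (Finset.mem_univ j)]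
    · simp
    · simp [hj]
  · rw [if_neg hx]
    push Not at hx
    rw [Finset.prod_eq_one]
    · simp
    · intro j _
      rw [if_neg (hx j)]
      simp

omit hψ hqK hq in
theorem rst_or_one (p : ℕ) (g : Fin n → Option (ZMod q)) (ω : Fin n → Bool × ZMod q) {k : ℕ}
    (f : Fin k → Fm) (j : Fin k) (h : rst K p g ω (f j) = 1) : rst K p g ω (.or k f) = 1 := by
  rw [rst_or, Finset.prod_eq_zero (Finset.mem_univ j) (by rw [h, sub_self]), sub_zero]

omit hψ hqK hq in
theorem rst_mod {p : ℕ} [hp : Fact p.Prime] [CharP K p] (g : Fin n → Option (ZMod q))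
    (ω : Fin n → Bool × ZMod q) {k : ℕ} (f : Fin k → Fm) :
    rst K p g ω (.mod k f) = 1 - (∑ j, rst K p g ω (f j)) ^ (p - 1) := by
  have h : (∑ j, rst K p g ω (f j)) =
      (fun x => ((∑ j, ((f j).eval p (enc q (mrg g ω x))).toNat : ℕ) : K)) := by
    funext x
    simp only [Finset.sum_apply, rst, ind]
    push_cast
    refine Finset.sum_congr rfl (fun j _ => ?_)
    by_cases hb : (f j).eval p (enc q (mrg g ω x)) = true <;> simp [hb]
  rw [h, ← ind_dvd]
  rfl

omit hψ hqK hq in
/-- Degree of a product of different factors. -/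
theorem prod_mem_sum (𝔉 : Filt (Fin n → ZMod q) K) {κ : Type} (s : Finset κ)
    (F : κ → (Fin n → ZMod q) → K) (D : κ → ℕ) (h : ∀ j ∈ s, F j ∈ 𝔉.LD (D j)) :
    (∏ j ∈ s, F j) ∈ 𝔉.LD (∑ j ∈ s, D j) := by
  induction s using Finset.induction_on with
  | empty => simpa using 𝔉.one_mem
  | insert a s ha ih =>
    rw [Finset.prod_insert ha, Finset.sum_insert ha]
    exact 𝔉.mul_mem (h a (Finset.mem_insert_self a s))
      (ih (fun j hj => h j (Finset.mem_insert_of_mem hj)))

omit hψ hqK hq in
theorem rst_or_mem (p : ℕ) (𝔉 : Filt (Fin n → ZMod q) K) (g : Fin n → Option (ZMod q))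
    (ω : Fin n → Bool × ZMod q) {k : ℕ} (f : Fin k → Fm) (S : Finset (Fin k)) (D : Fin k → ℕ)
    (h : ∀ j ∈ S, rst K p g ω (f j) ∈ 𝔉.LD (D j)) (h0 : ∀ j, j ∉ S → rst K p g ω (f j) = 0) :
    rst K p g ω (.or k f) ∈ 𝔉.LD (∑ j ∈ S, D j) := by
  rw [rst_or]
  have : ∏ j, (1 - rst K p g ω (f j)) = ∏ j ∈ S, (1 - rst K p g ω (f j)) := by
    symm
    apply Finset.prod_subset (Finset.subset_univ S)
    intro j _ hj
    rw [h0 j hj, sub_zero]
  rw [this]
  refine Submodule.sub_mem _ (𝔉.one_mem' _) (prod_mem_sum 𝔉 S _ D ?_)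
  intro j hj
  exact Submodule.sub_mem _ (𝔉.one_mem' _) (h j hj)

omit hψ hqK hq in
theorem rst_mod_mem {p : ℕ} [hp : Fact p.Prime] [CharP K p] (𝔉 : Filt (Fin n → ZMod q) K)
    (g : Fin n → Option (ZMod q)) (ω : Fin n → Bool × ZMod q) {k : ℕ} (f : Fin k → Fm) (D : ℕ)
    (h : ∀ j, rst K p g ω (f j) ∈ 𝔉.LD D) :
    rst K p g ω (.mod k f) ∈ 𝔉.LD ((p - 1) * D) := by
  rw [rst_mod]
  exact Submodule.sub_mem _ (𝔉.one_mem' _) (𝔉.pow_mem (𝔉.sum_mem _ _ _ (fun j _ => h j)) _)

/-- Querying the columns of `H`. -/
theorem rst_mem_of_ext (p : ℕ) (g : Fin n → Option (ZMod q)) (ω : Fin n → Bool × ZMod q)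
    (T : Fm) (H : Finset (Fin n)) (D : ℕ)
    (h : ∀ h : Fin n → ZMod q, (∀ i, i ∉ H → h i = 0) →
      rst K p (ext H h g) ω T ∈ (chrFilt ψ n).LD D) :
    rst K p g ω T ∈ (chrFilt ψ n).LD (H.card + D) := by
  set S : Finset (Fin n → ZMod q) := Finset.univ.filter (fun h => ∀ i, i ∉ H → h i = 0) with hS
  have e : rst K p g ω T = ∑ h ∈ S, (fun x => if ∀ i ∈ H, mrg g ω x i = h i then (1 : K) else 0) *
      rst K p (ext H h g) ω T := by
    funext x
    simp only [Finset.sum_apply, Pi.mul_apply]
    set h0 : Fin n → ZMod q := fun i => if i ∈ H then mrg g ω x i else 0 with hh0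
    rw [Finset.sum_eq_single h0]
    · rw [if_pos (by intro i hi; simp [hh0, hi]), one_mul]
      unfold rst ind
      have : mrg (ext H h0 g) ω x = mrg g ω x := by
        funext i
        by_cases hi : i ∈ H
        · simp only [mrg, ext, if_pos hi, hh0]
        · simp only [mrg, ext, if_neg hi]
      beta_reduce
      rw [this]
    · intro h hh hne
      rw [if_neg, zero_mul]
      intro hcon
      apply hne
      funext i
      by_cases hi : i ∈ H
      · simp only [hh0, if_pos hi]; exact (hcon i hi).symm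
      · simp only [hh0, if_neg hi]
        exact (Finset.mem_filter.1 hh).2 i hi
    · intro hn
      exfalso
      apply hn
      rw [hS, Finset.mem_filter]
      refine ⟨Finset.mem_univ _, fun i hi => ?_⟩
      simp [hh0, hi]
  rw [e]
  refine Submodule.sum_mem _ (fun h0 hh0 => (chrFilt ψ n).mul_mem ?_ ?_)
  · apply dep_mem hψ hqK
    intro x x' hx
    have : (∀ i ∈ H, mrg g ω x i = h0 i) ↔ (∀ i ∈ H, mrg g ω x' i = h0 i) := by
      have e : ∀ i ∈ H, mrg g ω x i = mrg g ω x' i := by
        intro i hi
        unfold mrg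
        rw [hx i hi]
      constructor
      · intro h i hi; rw [← e i hi]; exact h i hi
      · intro h i hi; rw [e i hi]; exact h i hi
    simp only [this]
  · exact h h0 (Finset.mem_filter.1 hh0).2

end Deg

end Pool.Agent.Helper21.Lin
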