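import Pool.Agent.Helper21.AC0p.Defs

/-!
Semantic derivations.
-/

namespace Pool.Agent.Helper21.Lin

open Pool.Agent.Helper21.AC0p

/-- `SemDerivation p a F π`: the list of lines `π` (latest line first) is a semantic derivation
of fan-in at most `a` from the clauses of `F`: every line is a clause of `F` or is implied, under
all truth assignments, by some `a` (or fewer) earlier lines. -/
inductive SemDerivation (p a : ℕ) (F : List Clause) : List Fm → Prop
  | nil : SemDerivation p a F []
  | clause {π : List Fm} {C : Clause} :
      SemDerivation p a F π → C ∈ F → SemDerivation p a F (clauseFm C :: π)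
  | imp {π : List Fm} {A : Fm} (L : List Fm) :
      SemDerivation p a F π → L.length ≤ a → (∀ B ∈ L, B ∈ π) →
        (∀ v : ℕ → Bool, (∀ B ∈ L, B.eval p v = true) → A.eval p v = true) →
          SemDerivation p a F (A :: π)

/-- A semantic refutation is a semantic derivation that contains the empty disjunction. -/
def SemRefutation (p a : ℕ) (F : List Clause) (π : List Fm) : Prop :=
  SemDerivation p a F π ∧ Fm.orL [] ∈ π

/-- Derivations with sound rules are semantic derivations. -/
theorem Derivation.sem {p a : ℕ} {R : List Rule} (hR : ∀ r ∈ R, r.Sound p)
    (ha : ∀ r ∈ R, r.prems.length ≤ a) {F : List Clause} {π : List Fm}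
    (h : Derivation R F π) : SemDerivation p a F π := by
  induction h with
  | nil => exact SemDerivation.nil
  | clause _ hC ih => exact SemDerivation.clause ih hC
  | @rule π r σ τ _ hr hprem ih =>
    refine SemDerivation.imp (r.prems.map (fun s => s.inst σ τ)) ih ?_ ?_ ?_
    · rw [List.length_map]; exact ha r hr
    · intro B hB
      rw [List.mem_map] at hB
      obtain ⟨s, hs, rfl⟩ := hB
      exact hprem s hs
    · intro v hv
      apply hR r hr σ τ v
      intro s hs
      exact hv _ (List.mem_map_of_mem hs)

end Pool.Agent.Helper21.Lin
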