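import Pool.Agent.Helper21.Lin.SysW
import Pool.Agent.Helper21.Lin.SemDefs

/-!
Semantic refutations with lines of low degree.
-/

namespace Pool.Agent.Helper21.Lin

open scoped BigOperators Classical
open Pool.Agent.Helper21.AC0p

variable {q n m W : ℕ} [hq : Fact q.Prime] {K : Type} [Field K]
variable {ψ : AddChar (ZMod q) K} (hψ : ψ.IsPrimitive) (hqK : (q : K) ≠ 0)

/-- No fixed columns. -/
def nog (q n : ℕ) : Fin n → Option (ZMod q) := fun _ => none

theorem eval_clauseFm (p : ℕ) (v : ℕ → Bool) (C : Clause) :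
    (clauseFm C).eval p v = true ↔ ∃ l ∈ C, v l.1 = l.2 := by
  unfold clauseFm Fm.orL
  simp only [Fm.eval, decide_eq_true_eq]
  constructor
  · rintro ⟨i, hi⟩
    have h1 : (C.map litFm).get i ∈ C.map litFm := List.get_mem _ _
    rw [List.mem_map] at h1
    obtain ⟨l, hl, hli⟩ := h1
    refine ⟨l, hl, ?_⟩
    rw [← hli] at hi
    rcases l with ⟨k, b⟩
    cases b <;> simp [litFm, Fm.eval] at hi ⊢ <;> exact hi
  · rintro ⟨l, hl, hv⟩
    have h1 : litFm l ∈ C.map litFm := List.mem_map_of_mem hl
    obtain ⟨i, hi⟩ := List.get_of_mem h1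
    refine ⟨i, ?_⟩
    rw [hi]
    rcases l with ⟨k, b⟩
    cases b <;> simp [litFm, Fm.eval] at hv ⊢ <;> exact hv

/-- The axioms of the restricted system. -/
def axW (K : Type) [Field K] (p : ℕ) (ω : Fin n → Bool × ZMod q) (F : List Clause) :
    Set ((Fin n → ZMod q) → K) := {g | ∃ C ∈ F, g = 1 - rst K p (nog q n) ω (clauseFm C)}

theorem rst_clause_mem (p : ℕ) (ω : Fin n → Bool × ZMod q) (f : Fin m × Fin W → Fin n)
    (r : Fin m) (a : Fin W → Fin (q - 1) → Bool)
    (hψ : ψ.IsPrimitive) (hqK : (q : K) ≠ 0) :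
    1 - rst K p (nog q n) ω (clauseFm (rowClW q f r a)) ∈ (chrFilt ψ n).LD W := by
  have hq2 := hq.out.two_le
  refine Submodule.sub_mem _ ((chrFilt ψ n).one_mem' _) ?_
  have h1 : rst K p (nog q n) ω (clauseFm (rowClW q f r a)) ∈
      (chrFilt ψ n).LD (Finset.univ.image (fun t => f (r, t))).card := by
    apply dep_mem hψ hqK
    intro x x' hx
    have h2 : (clauseFm (rowClW q f r a)).eval p (enc q (mrg (nog q n) ω x)) =
        (clauseFm (rowClW q f r a)).eval p (enc q (mrg (nog q n) ω x')) := by
      rw [Bool.eq_iff_iff, eval_clauseFm, eval_clauseFm]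
      have h3 : ∀ l ∈ rowClW q f r a, enc q (mrg (nog q n) ω x) l.1 =
          enc q (mrg (nog q n) ω x') l.1 := by
        intro l hl
        rw [mem_rowClW] at hl
        obtain ⟨t, j, rfl⟩ := hl
        simp only
        rw [enc_bitVar hq2, enc_bitVar hq2]
        have : mrg (nog q n) ω x (f (r, t)) = mrg (nog q n) ω x' (f (r, t)) := by
          unfold mrg nog
          rw [hx (f (r, t)) (Finset.mem_image_of_mem _ (Finset.mem_univ t))]
        rw [this]
      constructor
      · rintro ⟨l, hl, hv⟩; exact ⟨l, hl, by rw [← h3 l hl]; exact hv⟩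
      · rintro ⟨l, hl, hv⟩; exact ⟨l, hl, by rw [h3 l hl]; exact hv⟩
    unfold rst ind
    beta_reduce
    rw [h2]
  refine (chrFilt ψ n).mono (Finset.card_image_le.trans ?_) h1
  rw [Finset.card_univ, Fintype.card_fin]

include hψ hqK in
/-- Degree lower bound for the restricted system. -/
theorem sysW_lower (p : ℕ) (ω : Fin n → Bool × ZMod q) (f : Fin m × Fin W → Fin n)
    (rhs : Fin m → ZMod q) {ρ w : ℕ} (hw : 2 * W ≤ w)
    (hE : Expands (matW q f (fun i => (ω i).1)) ρ w) :
    ¬ Der (chrFilt ψ n) (axW K p ω (sysW q f rhs)) w 1 := by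
  have hq2 := hq.out.two_le
  refine linsys_lower (b := fun r => rhs r - ∑ t, (if (ω (f (r, t))).1 = true then 0 else
    (ω (f (r, t))).2)) (k := W) hψ hqK hE hw (fun r j => matW_weight f _ r j) ?_
  rintro g ⟨C, hC, rfl⟩
  rw [mem_sysW] at hC
  obtain ⟨r, a, ha, rfl⟩ := hC
  refine ⟨rst_clause_mem p ω f r a hψ hqK, r, ?_⟩
  intro x hx
  have hsum : ∑ t, mrg (nog q n) ω x (f (r, t)) = rhs r := by
    have h1 : ∑ i, matW q f (fun i => (ω i).1) r i * x i =
        ∑ t, (if (ω (f (r, t))).1 = true then x (f (r, t)) else 0) := by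
      have h2 : ∀ i, matW q f (fun i => (ω i).1) r i * x i =
          ∑ t, (if f (r, t) = i then (if (ω i).1 = true then x i else 0) else 0) := by
        intro i
        unfold matW
        by_cases hal : (ω i).1 = true
        · simp only [hal, if_true, Finset.sum_mul]
          refine Finset.sum_congr rfl (fun t _ => ?_)
          split_ifs <;> simp
        · simp [hal]
      rw [Finset.sum_congr rfl (fun i _ => h2 i), Finset.sum_comm]
      refine Finset.sum_congr rfl (fun t _ => ?_)
      rw [Finset.sum_ite_eq]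
      simp
    have h3 : ∑ t, mrg (nog q n) ω x (f (r, t)) =
        ∑ t, (if (ω (f (r, t))).1 = true then x (f (r, t)) else 0) +
        ∑ t, (if (ω (f (r, t))).1 = true then 0 else (ω (f (r, t))).2) := by
      rw [← Finset.sum_add_distrib]
      refine Finset.sum_congr rfl (fun t _ => ?_)
      unfold mrg nog
      by_cases hal : (ω (f (r, t))).1 = true <;> simp [hal]
    rw [h3, ← h1, hx]
    ring
  have htrue : (clauseFm (rowClW q f r a)).eval p (enc q (mrg (nog q n) ω x)) = true := by
    rw [eval_clauseFm]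
    by_contra hcon
    push Not at hcon
    apply ha
    rw [← hsum]
    unfold asgW
    refine Finset.sum_congr rfl (fun t _ => ?_)
    rw [← sum_enc (mrg (nog q n) ω x (f (r, t)))]
    refine Finset.sum_congr rfl (fun j _ => ?_)
    have h4 := hcon (bitVar q (f (r, t)).val j.val, !(a t j)) (mem_rowClW.2 ⟨t, j, rfl⟩)
    simp only at h4
    rw [enc_bitVar hq2] at h4
    have h5 : a t j = decide (j.val < (mrg (nog q n) ω x (f (r, t))).val) := by
      cases h6 : a t j <;> cases h7 : decide (j.val < (mrg (nog q n) ω x (f (r, t))).val) <;>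
        simp_all
    rw [h5]
  simp only [Pi.sub_apply, Pi.one_apply, rst, ind, htrue, if_true, sub_self]

omit hq in
/-- Product of true lines. -/
theorem der_prod {𝔉 : Filt (Fin n → ZMod q) K} {Ax : Set ((Fin n → ZMod q) → K)} {w D : ℕ}
    (p : ℕ) (ω : Fin n → Bool × ZMod q) : ∀ (L : List Fm), L.length * D ≤ w →
    (∀ B ∈ L, rst K p (nog q n) ω B ∈ 𝔉.LD D) →
    (∀ B ∈ L, Der 𝔉 Ax w (1 - rst K p (nog q n) ω B)) →
    (L.map (fun B => rst K p (nog q n) ω B)).prod ∈ 𝔉.LD (L.length * D) ∧
      Der 𝔉 Ax w (1 - (L.map (fun B => rst K p (nog q n) ω B)).prod) := by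
  intro L
  induction L with
  | nil =>
    intro _ _ _
    simp only [List.map_nil, List.prod_nil, List.length_nil, zero_mul, sub_self]
    exact ⟨𝔉.one_mem, Der.zero⟩
  | cons B L ih =>
    intro hw hD hder
    have hw' : L.length * D + D ≤ w := by
      rw [List.length_cons, Nat.add_mul, one_mul] at hw; exact hw
    obtain ⟨h1, h2⟩ := ih (by omega) (fun B hB => hD B (List.mem_cons_of_mem _ hB))
      (fun B hB => hder B (List.mem_cons_of_mem _ hB))
    have hB := hD B (List.mem_cons_self ..)
    have hdB := hder B (List.mem_cons_self ..)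
    rw [List.map_cons, List.prod_cons, List.length_cons, Nat.add_mul, one_mul]
    refine ⟨?_, ?_⟩
    · rw [add_comm]; exact 𝔉.mul_mem hB h1
    · have e : (1 : (Fin n → ZMod q) → K) - rst K p (nog q n) ω B *
          (L.map (fun B => rst K p (nog q n) ω B)).prod =
          (1 - rst K p (nog q n) ω B) * (L.map (fun B => rst K p (nog q n) ω B)).prod +
          (1 - (L.map (fun B => rst K p (nog q n) ω B)).prod) := by ring
      rw [e]
      refine Der.add (Der.mul hdB (Submodule.sub_mem _ (𝔉.one_mem' _) hB) h1 (by omega)) h2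

omit hq in
/-- Simulation of a semantic derivation. -/
theorem sem_sim {𝔉 : Filt (Fin n → ZMod q) K} {w D p a : ℕ} (ω : Fin n → Bool × ZMod q)
    {F : List Clause} (hF : ∀ C ∈ F, 1 - rst K p (nog q n) ω (clauseFm C) ∈ 𝔉.LD w)
    (haw : (a + 1) * D ≤ w) {π : List Fm} (h : SemDerivation p a F π)
    (hD : ∀ A ∈ π, rst K p (nog q n) ω A ∈ 𝔉.LD D) :
    ∀ A ∈ π, Der 𝔉 (axW K p ω F) w (1 - rst K p (nog q n) ω A) := by
  induction h with
  | nil => intro A hA; simp at hA
  | @clause π C _ hC ih =>
    intro A hA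
    rw [List.mem_cons] at hA
    rcases hA with rfl | hA
    · exact Der.ax ⟨C, hC, rfl⟩ (hF C hC)
    · exact ih (fun B hB => hD B (List.mem_cons_of_mem _ hB)) A hA
  | @imp π B L _ hL hLπ himp ih =>
    intro A hA
    rw [List.mem_cons] at hA
    rcases hA with rfl | hA
    · have ih' := ih (fun B hB => hD B (List.mem_cons_of_mem _ hB))
      have h1 : L.length * D + D ≤ w := by
        have : L.length * D ≤ a * D := Nat.mul_le_mul_right _ hL
        rw [Nat.add_mul, one_mul] at haw
        omega
      obtain ⟨h2, h3⟩ := der_prod (𝔉 := 𝔉) (Ax := axW K p ω F) (w := w) (D := D) p ω L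
        (by omega) (fun B hB => hD B (List.mem_cons_of_mem _ (hLπ B hB)))
        (fun B hB => ih' B (hLπ B hB))
      have hA' := hD A (List.mem_cons_self ..)
      have e : (1 : (Fin n → ZMod q) → K) - rst K p (nog q n) ω A =
          (1 - (L.map (fun B => rst K p (nog q n) ω B)).prod) *
            (1 - rst K p (nog q n) ω A) := by
        funext x
        simp only [Pi.mul_apply, Pi.sub_apply, Pi.one_apply]
        by_cases hx : A.eval p (enc q (mrg (nog q n) ω x)) = true
        · have : rst K p (nog q n) ω A x = 1 := by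
            simp only [rst, ind]; rw [if_pos hx]
          rw [this]; simp
        · have h4 : ¬ ∀ B ∈ L, B.eval p (enc q (mrg (nog q n) ω x)) = true := by
            intro hall
            exact hx (himp _ hall)
          push Not at h4
          obtain ⟨B, hB, hBx⟩ := h4
          have h5 : (L.map (fun B => rst K p (nog q n) ω B)).prod x = 0 := by
            have e2 : (L.map (fun B => rst K p (nog q n) ω B)).prod x =
                (L.map (fun B => rst K p (nog q n) ω B x)).prod := by
              have := map_list_prod (Pi.evalMonoidHom (fun _ : Fin n → ZMod q => K) x)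
                (L.map (fun B => rst K p (nog q n) ω B))
              simp only [Pi.evalMonoidHom_apply, List.map_map] at this
              rw [this]
              rfl
            rw [e2]
            apply List.prod_eq_zero
            rw [List.mem_map]
            refine ⟨B, hB, ?_⟩
            simp only [rst, ind]
            rw [if_neg hBx]
          rw [h5]; ring
      rw [e]
      exact Der.mul h3 (Submodule.sub_mem _ (𝔉.one_mem' _) h2)
        (Submodule.sub_mem _ (𝔉.one_mem' _) hA') h1
    · exact ih (fun B hB => hD B (List.mem_cons_of_mem _ hB)) A hA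

omit hq in
/-- No semantic refutation has all lines of low degree. -/
theorem no_sem_refutation {𝔉 : Filt (Fin n → ZMod q) K} {w D p a : ℕ}
    (ω : Fin n → Bool × ZMod q)
    {F : List Clause} (hF : ∀ C ∈ F, 1 - rst K p (nog q n) ω (clauseFm C) ∈ 𝔉.LD w)
    (haw : (a + 1) * D ≤ w) (hhard : ¬ Der 𝔉 (axW K p ω F) w 1) {π : List Fm}
    (h : SemRefutation p a F π) : ∃ A ∈ π, rst K p (nog q n) ω A ∉ 𝔉.LD D := by
  by_contra hcon
  push Not at hcon
  apply hhard
  have h1 := sem_sim ω hF haw h.1 hcon _ h.2
  have h2 : rst K p (nog q n) ω (Fm.orL []) = 0 := by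
    funext x
    simp [rst, ind, Fm.orL, Fm.eval]
  rw [h2, sub_zero] at h1
  exact h1

end Pool.Agent.Helper21.Lin
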