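import Pool.Agent.Helper21.Lin.LogExp
import Pool.Agent.Helper21.Lin.Alive
import Pool.Agent.Helper21.Lin.Restrict

/-!
Linear systems modulo q with rows of weight W, their CNFs and restrictions.
-/

namespace Pool.Agent.Helper21.Lin

open scoped BigOperators Classical
open Pool.Agent.Helper21.AC0p

section CNF

variable (q : ℕ) {n m W : ℕ}

/-- The clause of row `r` excluding the partial assignment `a`. -/
def rowClW (f : Fin m × Fin W → Fin n) (r : Fin m) (a : Fin W → Fin (q - 1) → Bool) : Clause :=
  (List.finRange W).flatMap (fun t => (List.finRange (q - 1)).map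
    (fun j => (bitVar q (f (r, t)).val j.val, !(a t j))))

/-- The value modulo `q` of a partial assignment. -/
def asgW (a : Fin W → Fin (q - 1) → Bool) : ZMod q := ∑ t, ∑ j, if a t j then 1 else 0

/-- The CNF of the system. -/
noncomputable def sysW (f : Fin m × Fin W → Fin n) (rhs : Fin m → ZMod q) : List Clause :=
  (List.finRange m).flatMap (fun r =>
    ((Finset.univ.filter (fun a : Fin W → Fin (q - 1) → Bool => asgW q a ≠ rhs r)).toList.map
      (rowClW q f r)))

variable {q}

theorem mem_rowClW {f : Fin m × Fin W → Fin n} {r : Fin m}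
    {a : Fin W → Fin (q - 1) → Bool} {l : Lit} :
    l ∈ rowClW q f r a ↔ ∃ t j, l = (bitVar q (f (r, t)).val j.val, !(a t j)) := by
  simp only [rowClW, List.mem_flatMap, List.mem_finRange, true_and, List.mem_map]
  constructor
  · rintro ⟨t, j, h⟩; exact ⟨t, j, h.symm⟩
  · rintro ⟨t, j, h⟩; exact ⟨t, j, h.symm⟩

theorem length_rowClW {f : Fin m × Fin W → Fin n} {r : Fin m}
    {a : Fin W → Fin (q - 1) → Bool} : (rowClW q f r a).length = W * (q - 1) := by
  simp [rowClW]

theorem mem_sysW {f : Fin m × Fin W → Fin n} {rhs : Fin m → ZMod q} {C : Clause} :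
    C ∈ sysW q f rhs ↔ ∃ r a, asgW q a ≠ rhs r ∧ C = rowClW q f r a := by
  simp only [sysW, List.mem_flatMap, List.mem_finRange, true_and, List.mem_map,
    Finset.mem_toList, Finset.mem_filter, Finset.mem_univ]
  constructor
  · rintro ⟨r, a, h1, h2⟩; exact ⟨r, a, h1, h2.symm⟩
  · rintro ⟨r, a, h1, h2⟩; exact ⟨r, a, h1, h2.symm⟩

theorem length_sysW {f : Fin m × Fin W → Fin n} {rhs : Fin m → ZMod q} :
    (sysW q f rhs).length ≤ m * 2 ^ (W * (q - 1)) := by
  simp only [sysW, List.length_flatMap, List.length_map, Finset.length_toList]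
  have h : ∀ r ∈ (List.finRange m).map (fun r : Fin m =>
      (Finset.univ.filter (fun a : Fin W → Fin (q - 1) → Bool => asgW q a ≠ rhs r)).card),
      r ≤ 2 ^ (W * (q - 1)) := by
    intro c hc
    rw [List.mem_map] at hc
    obtain ⟨r, _, rfl⟩ := hc
    refine (Finset.card_filter_le _ _).trans ?_
    rw [Finset.card_univ]
    simp [← pow_mul, mul_comm]
  refine (List.sum_le_card_nsmul _ _ h).trans ?_
  simp

theorem exists_rhsW [hq : Fact q.Prime] (f : Fin (n + 1) × Fin W → Fin n) :
    ∃ rhs : Fin (n + 1) → ZMod q, ∀ x : Fin n → ZMod q, ∃ r, ∑ t, x (f (r, t)) ≠ rhs r := by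
  by_contra hcon
  push Not at hcon
  have hsurj : Function.Surjective
      (fun (x : Fin n → ZMod q) (r : Fin (n + 1)) => ∑ t, x (f (r, t))) := by
    intro rhs
    obtain ⟨x, hx⟩ := hcon rhs
    exact ⟨x, funext hx⟩
  have := Fintype.card_le_of_surjective _ hsurj
  simp only [Fintype.card_pi, ZMod.card, Finset.prod_const, Finset.card_univ,
    Fintype.card_fin] at this
  have h2 := hq.out.two_le
  have h3 : q ^ n < q ^ (n + 1) := Nat.pow_lt_pow_right (by omega) (by omega)
  omega

theorem unsat_sysW [hq : Fact q.Prime] {f : Fin m × Fin W → Fin n} {rhs : Fin m → ZMod q}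
    (h : ∀ x : Fin n → ZMod q, ∃ r, ∑ t, x (f (r, t)) ≠ rhs r) : Unsat (sysW q f rhs) := by
  intro v
  obtain ⟨r, hr⟩ := h (fun i => ∑ j : Fin (q - 1), if v (bitVar q i.val j.val) then 1 else 0)
  refine ⟨rowClW q f r (fun t j => v (bitVar q (f (r, t)).val j.val)), ?_, ?_⟩
  · rw [mem_sysW]
    exact ⟨r, _, hr, rfl⟩
  · intro l hl
    rw [mem_rowClW] at hl
    obtain ⟨t, j, rfl⟩ := hl
    simp

end CNF

section Matrix

variable {q n m W : ℕ}

/-- The matrix of the system with the dead columns deleted. -/
noncomputable def matW (q : ℕ) (f : Fin m × Fin W → Fin n) (al : Fin n → Bool) (r : Fin m)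
    (i : Fin n) : ZMod q := if al i = true then ∑ t, (if f (r, t) = i then 1 else 0) else 0

theorem matW_weight [hq : Fact q.Prime] (f : Fin m × Fin W → Fin n) (al : Fin n → Bool)
    (r : Fin m) (j : ZMod q) : hammingNorm (j • matW q f al r) ≤ W := by
  unfold hammingNorm
  have h1 : Finset.univ.filter (fun i => (j • matW q f al r) i ≠ 0) ⊆
      Finset.univ.image (fun t => f (r, t)) := by
    intro i hi
    rw [Finset.mem_filter] at hi
    rw [Finset.mem_image]
    by_contra hcon
    push Not at hcon
    apply hi.2
    have : matW q f al r i = 0 := by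
      unfold matW
      split_ifs
      · refine Finset.sum_eq_zero (fun t _ => ?_)
        rw [if_neg (hcon t (Finset.mem_univ _))]
      · rfl
    simp [this]
  refine (Finset.card_le_card h1).trans (Finset.card_image_le.trans ?_)
  rw [Finset.card_univ, Fintype.card_fin]

/-- Number of edges from `S` to a column. -/
noncomputable def dg (f : Fin m × Fin W → Fin n) (S : Finset (Fin m)) (i : Fin n) : ℕ :=
  ((edges W S).filter (fun e => f e = i)).card

theorem sum_dg (f : Fin m × Fin W → Fin n) (S : Finset (Fin m)) :
    ∑ i ∈ nb f S, dg f S i = S.card * W := by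
  rw [← card_edges]
  unfold dg
  exact (Finset.card_eq_sum_card_fiberwise (fun e he => Finset.mem_image_of_mem f he)).symm

theorem one_le_dg (f : Fin m × Fin W → Fin n) (S : Finset (Fin m)) {i : Fin n}
    (hi : i ∈ nb f S) : 1 ≤ dg f S i := by
  unfold nb at hi
  rw [Finset.mem_image] at hi
  obtain ⟨e, he, rfl⟩ := hi
  unfold dg
  rw [Nat.one_le_iff_ne_zero, Finset.card_ne_zero]
  exact ⟨e, Finset.mem_filter.2 ⟨he, rfl⟩⟩

/-- Columns with a unique neighbour in `S` that are alive. -/
noncomputable def uniq (f : Fin m × Fin W → Fin n) (al : Fin n → Bool) (S : Finset (Fin m)) :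
    Finset (Fin n) := Finset.univ.filter (fun i => al i = true ∧ dg f S i = 1)

theorem uniq_card {V : ℕ} (f : Fin m × Fin (16 * V) → Fin n) (al : Fin n → Bool)
    (S : Finset (Fin m)) (hS : S.card * (15 * V) ≤ (nb f S).card)
    (hal : ∀ r ∈ S, 4 * V ≤ ((nb f {r}).filter (fun i => al i = true)).card) :
    S.card * (2 * V) ≤ (uniq f al S).card := by
  -- alive incidences
  have h1 : S.card * (4 * V) ≤ ∑ i ∈ (nb f S).filter (fun i => al i = true), dg f S i := by
    have e1 : ∀ r ∈ S, ((nb f {r}).filter (fun i => al i = true)).card ≤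
        ∑ i ∈ (nb f S).filter (fun i => al i = true), dg f {r} i := by
      intro r hr
      have hsub : (nb f {r}).filter (fun i => al i = true) ⊆
          (nb f S).filter (fun i => al i = true) := by
        intro i hi
        rw [Finset.mem_filter] at hi ⊢
        refine ⟨?_, hi.2⟩
        have h2 := hi.1
        unfold nb at h2 ⊢
        rw [Finset.mem_image] at h2 ⊢
        obtain ⟨e, he, rfl⟩ := h2
        refine ⟨e, ?_, rfl⟩
        unfold edges at he ⊢
        rw [Finset.mem_product] at he ⊢
        rw [Finset.mem_singleton] at he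
        exact ⟨by rw [he.1]; exact hr, he.2⟩
      calc ((nb f {r}).filter (fun i => al i = true)).card
          = ∑ i ∈ (nb f {r}).filter (fun i => al i = true), 1 := by
            rw [Finset.card_eq_sum_ones]
        _ ≤ ∑ i ∈ (nb f {r}).filter (fun i => al i = true), dg f {r} i :=
            Finset.sum_le_sum (fun i hi => one_le_dg f {r} (Finset.mem_filter.1 hi).1)
        _ ≤ _ := Finset.sum_le_sum_of_subset hsub
    have e2 : ∀ i, dg f S i = ∑ r ∈ S, dg f {r} i := by
      intro i
      unfold dg
      have : (edges (16 * V) S).filter (fun e => f e = i) =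
          S.biUnion (fun r => (edges (16 * V) {r}).filter (fun e => f e = i)) := by
        ext e
        simp only [edges, Finset.mem_filter, Finset.mem_product, Finset.mem_univ, and_true,
          Finset.mem_biUnion, Finset.mem_singleton]
        constructor
        · rintro ⟨h1, h2⟩; exact ⟨e.1, h1, rfl, h2⟩
        · rintro ⟨r, h1, h2, h3⟩; exact ⟨by rw [h2]; exact h1, h3⟩
      rw [this, Finset.card_biUnion]
      intro r _ r' _ hrr
      rw [Function.onFun, Finset.disjoint_left]
      intro e he he'
      simp only [edges, Finset.mem_filter, Finset.mem_product, Finset.mem_singleton] at he he'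
      exact hrr (he.1.1.symm.trans he'.1.1)
    calc S.card * (4 * V) = ∑ r ∈ S, 4 * V := by rw [Finset.sum_const, smul_eq_mul]
      _ ≤ ∑ r ∈ S, ∑ i ∈ (nb f S).filter (fun i => al i = true), dg f {r} i :=
          Finset.sum_le_sum (fun r hr => (hal r hr).trans (e1 r hr))
      _ = ∑ i ∈ (nb f S).filter (fun i => al i = true), dg f S i := by
          rw [Finset.sum_comm]
          exact Finset.sum_congr rfl (fun i _ => (e2 i).symm)
  have h2 : ∑ i ∈ (nb f S).filter (fun i => al i = true), dg f S i ≤
      (uniq f al S).card + 2 * (∑ i ∈ nb f S, (dg f S i - 1)) := by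
    have e3 : (uniq f al S).card =
        ∑ i ∈ nb f S, if al i = true ∧ dg f S i = 1 then 1 else 0 := by
      rw [← Finset.sum_filter, ← Finset.card_eq_sum_ones]
      congr 1
      ext i
      simp only [uniq, Finset.mem_filter, Finset.mem_univ, true_and]
      constructor
      · intro h
        refine ⟨?_, h⟩
        by_contra hcon
        have : dg f S i = 0 := by
          unfold dg
          rw [Finset.card_eq_zero, Finset.filter_eq_empty_iff]
          intro e he hfe
          apply hcon
          rw [← hfe]
          exact Finset.mem_image_of_mem f he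
        omega
      · intro h; exact h.2
    rw [e3, Finset.mul_sum, ← Finset.sum_add_distrib, Finset.sum_filter]
    apply Finset.sum_le_sum
    intro i hi
    have h3 := one_le_dg f S hi
    by_cases ha : al i = true
    · simp only [ha, if_true, true_and]
      by_cases hd : dg f S i = 1
      · simp [hd]
      · simp only [hd, if_false]
        omega
    · simp [ha]
  have h3 : ∑ i ∈ nb f S, (dg f S i - 1) + (nb f S).card = S.card * (16 * V) := by
    rw [← sum_dg f S, Finset.card_eq_sum_ones, ← Finset.sum_add_distrib]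
    refine Finset.sum_congr rfl (fun i hi => ?_)
    have := one_le_dg f S hi
    omega
  have e4 : S.card * (16 * V) = S.card * (15 * V) + S.card * V := by ring
  have e5 : S.card * (4 * V) = S.card * (2 * V) + 2 * (S.card * V) := by ring
  omega

theorem comb_uniq [hq : Fact q.Prime] (f : Fin m × Fin W → Fin n) (al : Fin n → Bool)
    (u : Fin m → ZMod q) {i : Fin n}
    (hi : i ∈ uniq f al (Finset.univ.filter (fun r => u r ≠ 0))) :
    comb (matW q f al) u i ≠ 0 := by
  set S := Finset.univ.filter (fun r => u r ≠ 0) with hS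
  rw [uniq, Finset.mem_filter] at hi
  obtain ⟨_, hal, hd⟩ := hi
  unfold dg at hd
  rw [Finset.card_eq_one] at hd
  obtain ⟨e0, he0⟩ := hd
  have hmem : ∀ e : Fin m × Fin W, (u e.1 ≠ 0 ∧ f e = i) ↔ e = e0 := by
    intro e
    have : e ∈ (edges W S).filter (fun e => f e = i) ↔ e ∈ ({e0} : Finset _) := by rw [he0]
    rw [Finset.mem_filter, Finset.mem_singleton] at this
    rw [← this]
    simp [edges, hS]
  have h0 := (hmem e0).2 rfl
  have h1 : comb (matW q f al) u i = u e0.1 := by
    unfold comb
    rw [Finset.sum_eq_single e0.1]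
    · unfold matW
      rw [if_pos hal, Finset.sum_eq_single e0.2]
      · rw [if_pos h0.2, mul_one]
      · intro t _ ht
        rw [if_neg]
        intro hf
        apply ht
        have := (hmem (e0.1, t)).1 ⟨h0.1, hf⟩
        rw [← this]
      · intro h; exact absurd (Finset.mem_univ _) h
    · intro r _ hr
      by_cases hu : u r = 0
      · rw [hu, zero_mul]
      · unfold matW
        rw [if_pos hal, Finset.sum_eq_zero, mul_zero]
        intro t _
        rw [if_neg]
        intro hf
        apply hr
        have := (hmem (r, t)).1 ⟨hu, hf⟩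
        rw [← this]
    · intro h; exact absurd (Finset.mem_univ _) h
  rw [h1]
  exact h0.1

theorem expands_matW [hq : Fact q.Prime] {V ρ w : ℕ} (f : Fin m × Fin (16 * V) → Fin n)
    (al : Fin n → Bool) (hV : 1 ≤ V) (hρ : 1 ≤ ρ) (hρn : 2 * ρ * (16 * V) * 2 ^ 32 ≤ n)
    (hw : w ≤ ρ * V)
    (hf : ∀ S : Finset (Fin m), S.Nonempty → S.card * (16 * V) * 2 ^ 32 ≤ n →
      S.card * (15 * V) ≤ (nb f S).card)
    (hal : ∀ r, 4 * V ≤ ((nb f {r}).filter (fun i => al i = true)).card) :
    Expands (matW q f al) ρ w := by
  have key : ∀ u : Fin m → ZMod q, hammingNorm u ≤ 2 * ρ →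
      hammingNorm u * (2 * V) ≤ hammingNorm (comb (matW q f al) u) := by
    intro u hu
    set S := Finset.univ.filter (fun r => u r ≠ 0) with hS
    have hSc : S.card = hammingNorm u := rfl
    by_cases hne : S.Nonempty
    · have h1 : S.card * (15 * V) ≤ (nb f S).card := by
        apply hf S hne
        refine le_trans ?_ hρn
        apply Nat.mul_le_mul_right
        apply Nat.mul_le_mul_right
        rw [hSc]; exact hu
      have h2 := uniq_card f al S h1 (fun r _ => hal r)
      rw [hSc] at h2
      refine h2.trans ?_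
      unfold hammingNorm
      apply Finset.card_le_card
      intro i hi
      rw [Finset.mem_filter]
      exact ⟨Finset.mem_univ _, comb_uniq f al u hi⟩
    · rw [Finset.not_nonempty_iff_eq_empty] at hne
      rw [← hSc, hne]
      simp
  refine ⟨hρ, ?_, ?_⟩
  · intro u hu hcomb
    by_contra hlt
    push Not at hlt
    have h1 := key u hu
    have h2 : (ρ + 1) * (2 * V) ≤ hammingNorm u * (2 * V) := Nat.mul_le_mul_right _ hlt
    have h3 : (ρ + 1) * (2 * V) = 2 * (ρ * V) + 2 * V := by ring
    omega
  · intro u hu hcomb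
    have h1 := key u (by omega)
    rw [hcomb, hammingNorm_zero] at h1
    have h2 : hammingNorm u = 0 := by
      by_contra hcon
      have : 1 * (2 * 1) ≤ hammingNorm u * (2 * V) :=
        Nat.mul_le_mul (Nat.one_le_iff_ne_zero.2 hcon) (Nat.mul_le_mul_left 2 hV)
      omega
    exact hammingNorm_eq_zero.1 h2

end Matrix

end Pool.Agent.Helper21.Lin
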